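import Pool.Agent.Y311.UB.Fam

/-!
# Cubes and simplices
-/

set_option autoImplicit false
set_option linter.unusedSectionVars false

open Filter Topology MeasureTheory ProbabilityTheory
open scoped ENNReal Matrix

noncomputable section

namespace Pool.Agent.Y311.UB

open Pool.Agent.W761.Box

/-- Directions indexed by a finite type. -/
theorem red_dir {J : Type} {d k : ℕ} {A : J → Matrix (Fin d) (Fin k) ℤ} {r : J → ℕ} {j : J}
    {ι : Type} [Fintype ι] [DecidableEq ι] (v : ι → Fin k → ℤ) (lam : ι → Fin d → ℤ)
    (h1 : ∀ a b, lam a ⬝ᵥ (A j *ᵥ v b) = if a = b then 1 else 0)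
    (h2 : ∀ i, i ≠ j → r i ≤ r j → ∃ a, A i *ᵥ v a = 0)
    (h3 : ∀ a, ∃ i, r i < r j ∧ ∃ κ : Fin k → ℤ, A j = A i + Matrix.vecMulVec (A j *ᵥ v a) κ) :
    ∃ (s : ℕ) (v : Fin s → Fin k → ℤ) (lam : Fin s → Fin d → ℤ),
      (∀ a b, lam a ⬝ᵥ (A j *ᵥ v b) = if a = b then 1 else 0) ∧
      (∀ i, i ≠ j → r i ≤ r j → ∃ a, A i *ᵥ v a = 0) ∧
      (∀ a, ∃ i, r i < r j ∧ ∃ κ : Fin k → ℤ, A j = A i + Matrix.vecMulVec (A j *ᵥ v a) κ) := by
  let e := Fintype.equivFin ι
  refine ⟨Fintype.card ι, fun a => v (e.symm a), fun a => lam (e.symm a), ?_, ?_, ?_⟩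
  · intro a b
    rw [h1]
    by_cases hab : a = b
    · rw [if_pos hab, if_pos (by rw [hab])]
    · rw [if_neg hab, if_neg (fun h => hab (e.symm.injective h))]
  · intro i hi hr
    obtain ⟨a, ha⟩ := h2 i hi hr
    refine ⟨e a, ?_⟩
    simp only [Equiv.symm_apply_apply]
    exact ha
  · intro a
    exact h3 _

/-- The matrices of the cube functions (`Sum.inr`) and of the simplex functions (`Sum.inl`). -/
def cM (d : ℕ) : Fin (d + 1) ⊕ Finset (Fin d) → Matrix (Fin (d + 1)) (Fin (d + 1)) ℤ
  | Sum.inl j => fun p q => Fin.cases (if p = j then 1 else 0) (fun l => if p = l.succ then 1 else 0) q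
  | Sum.inr e => fun p q => Fin.cases 0 (fun l => if p = l.succ ∧ l ∈ e then 1 else 0) q

theorem cM_inl_mulVec (d : ℕ) (j : Fin (d + 1)) (m : Fin (d + 1) → ℤ) :
    cM d (Sum.inl j) *ᵥ m = Pi.single j (m 0) + fun p => Fin.cases 0 (fun l => m l.succ) p := by
  funext p
  simp only [Matrix.mulVec, dotProduct, Fin.sum_univ_succ, cM, Fin.cases_zero, Fin.cases_succ,
    Pi.add_apply]
  congr 1
  · by_cases h : p = j
    · subst h; simp
    · rw [if_neg h, zero_mul, Pi.single_eq_of_ne h]
  · refine Fin.cases ?_ (fun l => ?_) p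
    · simp only [Fin.cases_zero]
      refine Finset.sum_eq_zero fun l _ => ?_
      rw [if_neg (Fin.succ_ne_zero l).symm, zero_mul]
    · simp only [Fin.cases_succ, Fin.succ_inj]
      rw [Finset.sum_eq_single l]
      · rw [if_pos rfl, one_mul]
      · intro b _ hb
        rw [if_neg hb.symm, zero_mul]
      · intro h
        exact absurd (Finset.mem_univ l) h

theorem cM_inr_mulVec (d : ℕ) (e : Finset (Fin d)) (m : Fin (d + 1) → ℤ) :
    cM d (Sum.inr e) *ᵥ m = fun p => Fin.cases 0 (fun l => if l ∈ e then m l.succ else 0) p := by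
  funext p
  simp only [Matrix.mulVec, dotProduct, Fin.sum_univ_succ, cM, Fin.cases_zero, Fin.cases_succ,
    zero_mul, zero_add]
  refine Fin.cases ?_ (fun l => ?_) p
  · simp only [Fin.cases_zero]
    refine Finset.sum_eq_zero fun l _ => ?_
    rw [if_neg (fun h => (Fin.succ_ne_zero l).symm h.1), zero_mul]
  · simp only [Fin.cases_succ, Fin.succ_inj]
    rw [Finset.sum_eq_single l]
    · by_cases hl : l ∈ e
      · rw [if_pos ⟨rfl, hl⟩, if_pos hl, one_mul]
      · rw [if_neg (fun h => hl h.2), if_neg hl, zero_mul]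
    · intro b _ hb
      rw [if_neg (fun h => hb h.1.symm), zero_mul]
    · intro h
      exact absurd (Finset.mem_univ l) h

/-- The rank function. -/
def cr (d : ℕ) : Fin (d + 1) ⊕ Finset (Fin d) → ℕ
  | Sum.inl j => d + 1 + (if j.val = 0 then d + 1 else j.val)
  | Sum.inr e => e.card

theorem cr_inr_le (d : ℕ) (e : Finset (Fin d)) : cr d (Sum.inr e) ≤ d := by
  have := e.card_le_univ
  simpa [cr] using this

theorem lt_cr_inl (d : ℕ) (j : Fin (d + 1)) : d < cr d (Sum.inl j) := by
  simp only [cr]
  omega

theorem cM_red (d : ℕ) : Red (cM d) := by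
  refine ⟨cr d, ?_⟩
  rintro (j | e) -
  · -- simplex functions
    set ι : Type := {a : Fin (d + 1) // a.val < (if j.val = 0 then d + 1 else j.val)} with hι
    have hne : ∀ a : ι, a.1 ≠ 0 → a.1 ≠ j := by
      rintro ⟨a, ha⟩ h0 hj
      simp only at h0 hj
      subst hj
      have : a.val ≠ 0 := fun h => h0 (Fin.ext h)
      rw [if_neg this] at ha
      omega
    -- the vectors
    set v : ι → Fin (d + 1) → ℤ := fun a => Pi.single 0 1 -
      (if a.1 = 0 then 0 else Pi.single a.1 1) with hv
    have hv0 : ∀ a : ι, v a 0 = 1 := by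
      intro a
      simp only [hv, Pi.sub_apply, Pi.single_eq_same]
      by_cases h : a.1 = 0
      · rw [if_pos h]; simp
      · rw [if_neg h, Pi.single_eq_of_ne (Ne.symm h)]; simp
    have hvs : ∀ (a : ι) (l : Fin d), v a l.succ = if a.1 = l.succ then -1 else 0 := by
      intro a l
      simp only [hv, Pi.sub_apply, Pi.single_eq_of_ne (Fin.succ_ne_zero l)]
      by_cases h : a.1 = 0
      · rw [if_pos h, if_neg (by rw [h]; exact (Fin.succ_ne_zero l).symm)]; simp
      · rw [if_neg h]
        by_cases h' : a.1 = l.succ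
        · rw [if_pos h', h', Pi.single_eq_same]; norm_num
        · rw [if_neg h', Pi.single_eq_of_ne (Ne.symm h')]; simp
    have hw : ∀ (i : Fin (d + 1)) (a : ι), cM d (Sum.inl i) *ᵥ v a =
        Pi.single i 1 - (if a.1 = 0 then 0 else Pi.single a.1 1) := by
      intro i a
      rw [cM_inl_mulVec, hv0, sub_eq_add_neg]
      congr 1
      funext p
      refine Fin.cases ?_ (fun l => ?_) p
      · simp only [Fin.cases_zero, Pi.neg_apply]
        by_cases h : a.1 = 0
        · rw [if_pos h]; simp
        · rw [if_neg h, Pi.single_eq_of_ne (Ne.symm h)]; simp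
      · simp only [Fin.cases_succ, Pi.neg_apply]
        rw [hvs]
        by_cases h : a.1 = 0
        · rw [if_pos h, if_neg (by rw [h]; exact (Fin.succ_ne_zero l).symm)]; simp
        · rw [if_neg h]
          by_cases h' : a.1 = l.succ
          · rw [if_pos h', h', Pi.single_eq_same]
          · rw [if_neg h', Pi.single_eq_of_ne (Ne.symm h')]; simp
    set lam : ι → Fin (d + 1) → ℤ := fun a => if a.1 = 0 then 1 else -Pi.single a.1 1 with hlam
    refine red_dir (r := cr d) (ι := ι) v lam ?_ ?_ ?_
    · intro a b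
      rw [hw, dotProduct_sub, hlam]
      by_cases ha : a.1 = 0
      · simp only [ha, if_true]
        rw [dotProduct_single, Pi.one_apply, one_mul]
        by_cases hb : b.1 = 0
        · rw [if_pos hb, dotProduct_zero, sub_zero, if_pos]
          exact Subtype.ext (ha.trans hb.symm)
        · rw [if_neg hb, dotProduct_single, Pi.one_apply, one_mul, sub_self, if_neg]
          rintro rfl
          exact hb ha
      · simp only [ha, if_false]
        rw [dotProduct_single, mul_one, Pi.neg_apply, Pi.single_eq_of_ne (hne a ha).symm]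
        by_cases hb : b.1 = 0
        · rw [if_pos hb, dotProduct_zero, if_neg]
          · simp
          · rintro rfl
            exact ha hb
        · rw [if_neg hb, dotProduct_single, mul_one, Pi.neg_apply]
          by_cases hab : a = b
          · rw [if_pos hab, hab, Pi.single_eq_same]; norm_num
          · rw [if_neg hab, Pi.single_eq_of_ne (fun h => hab (Subtype.ext h.symm))]; norm_num
    · rintro (i | e) hij hr
      · -- killed by the vector of `i`
        have hi0 : i.val < (if j.val = 0 then d + 1 else j.val) := by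
          have hij' : i.val ≠ j.val := fun h => hij (by rw [Fin.ext h])
          have := i.isLt
          simp only [cr] at hr
          split_ifs at hr ⊢ <;> omega
        have hin : i ≠ 0 := by
          rintro rfl
          have := j.isLt
          have hij' : (0 : Fin (d + 1)).val ≠ j.val := fun h => hij (by rw [Fin.ext h])
          simp only [cr, Fin.val_zero, if_true] at hr hij'
          rw [if_neg (Ne.symm hij')] at hr
          omega
        refine ⟨⟨i, hi0⟩, ?_⟩
        rw [hw, if_neg hin, sub_self]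
      · refine ⟨⟨0, ?_⟩, ?_⟩
        · simp only [Fin.val_zero]
          split_ifs with h <;> omega
        · rw [cM_inr_mulVec]
          funext p
          refine Fin.cases ?_ (fun l => ?_) p
          · simp
          · simp only [Fin.cases_succ, Pi.zero_apply]
            rw [hvs, if_neg (Fin.succ_ne_zero l).symm, ite_self]
    · intro a
      by_cases ha : a.1 = 0
      · refine ⟨Sum.inr Finset.univ, (cr_inr_le d _).trans_lt (lt_cr_inl d j), Pi.single 0 1, ?_⟩
        rw [hw, if_pos ha, sub_zero]
        funext p q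
        refine Fin.cases ?_ (fun l => ?_) q
        · simp only [cM, Matrix.add_apply, Matrix.vecMulVec_apply, Pi.single_apply, Fin.cases_zero]
          simp
        · simp only [cM, Matrix.add_apply, Matrix.vecMulVec_apply, Pi.single_apply, Fin.cases_succ]
          simp [Fin.succ_ne_zero]
      · refine ⟨Sum.inl a.1, ?_, Pi.single 0 1, ?_⟩
        · have ha' : a.1.val ≠ 0 := fun h => ha (Fin.ext h)
          have := a.2
          simp only [cr]
          rw [if_neg ha']
          split_ifs at this ⊢ <;> omega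
        · rw [hw, if_neg ha]
          funext p q
          refine Fin.cases ?_ (fun l => ?_) q
          · simp only [cM, Matrix.add_apply, Matrix.vecMulVec_apply, Pi.single_apply,
              Fin.cases_zero, Pi.sub_apply]
            simp
          · simp only [cM, Matrix.add_apply, Matrix.vecMulVec_apply, Pi.single_apply,
              Fin.cases_succ, Pi.sub_apply]
            simp [Fin.succ_ne_zero]
  · -- cube functions
    have hw : ∀ (e' : Finset (Fin d)) (a : Fin d), cM d (Sum.inr e') *ᵥ Pi.single a.succ 1 =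
        if a ∈ e' then Pi.single a.succ 1 else 0 := by
      intro e' a
      rw [cM_inr_mulVec]
      funext p
      refine Fin.cases ?_ (fun l => ?_) p
      · simp only [Fin.cases_zero]
        by_cases h : a ∈ e'
        · rw [if_pos h, Pi.single_eq_of_ne (Fin.succ_ne_zero a).symm]
        · rw [if_neg h]; rfl
      · simp only [Fin.cases_succ]
        by_cases hla : l = a
        · subst hla
          by_cases h : l ∈ e'
          · rw [if_pos h, if_pos h]
          · rw [if_neg h, if_neg h]; rfl
        · have hla' : l.succ ≠ a.succ := fun h => hla (Fin.succ_injective _ h)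
          rw [Pi.single_eq_of_ne hla', ite_self]
          by_cases h : a ∈ e'
          · rw [if_pos h, Pi.single_eq_of_ne hla']
          · rw [if_neg h]; rfl
    refine red_dir (r := cr d) (ι := {a : Fin d // a ∈ e}) (fun a => Pi.single a.1.succ 1)
      (fun a => Pi.single a.1.succ 1) ?_ ?_ ?_
    · intro a b
      rw [hw, if_pos b.2, dotProduct_single, mul_one]
      by_cases hab : a = b
      · rw [if_pos hab, hab, Pi.single_eq_same]
      · rw [if_neg hab, Pi.single_eq_of_ne]
        intro h
        exact hab (Subtype.ext (Fin.succ_injective _ h).symm)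
    · rintro (i | e') hij hr
      · exact absurd hr (not_le.mpr ((cr_inr_le d e).trans_lt (lt_cr_inl d i)))
      · have hne : e' ≠ e := fun h => hij (by rw [h])
        have hsub : ¬ e ⊆ e' := by
          intro h
          exact hne (Finset.eq_of_subset_of_card_le h hr).symm
        obtain ⟨a, ha, ha'⟩ := Finset.not_subset.mp hsub
        exact ⟨⟨a, ha⟩, by rw [hw, if_neg ha']⟩
    · rintro ⟨a, ha⟩
      refine ⟨Sum.inr (e.erase a), ?_, Pi.single a.succ 1, ?_⟩
      · simp only [cr]
        exact Finset.card_erase_lt_of_mem ha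
      · simp only
        rw [hw, if_pos ha]
        funext p q
        refine Fin.cases ?_ (fun l => ?_) q
        · simp only [cM, Matrix.add_apply, Matrix.vecMulVec_apply, Pi.single_apply, Fin.cases_zero]
          simp [(Fin.succ_ne_zero a).symm]
        · simp only [cM, Matrix.add_apply, Matrix.vecMulVec_apply, Pi.single_apply, Fin.cases_succ,
            Finset.mem_erase, Fin.succ_inj]
          by_cases hla : l = a
          · subst hla
            simp [ha]
          · simp [hla]

theorem prod_single {G : Type*} [Group G] : ∀ {d : ℕ} (T : Fin d → G) (j : Fin d) (c : ℤ),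
    (List.ofFn fun i => T i ^ ((Pi.single j c : Fin d → ℤ) i)).prod = T j ^ c
  | 0, _, j, _ => j.elim0
  | d + 1, T, j, c => by
    rw [List.ofFn_succ, List.prod_cons]
    refine Fin.cases ?_ (fun l => ?_) j
    · rw [Pi.single_eq_same]
      have : (fun i : Fin d => T i.succ ^ ((Pi.single (0 : Fin (d + 1)) c : Fin (d + 1) → ℤ) i.succ))
          = fun _ => 1 := by
        funext i
        rw [Pi.single_eq_of_ne (Fin.succ_ne_zero i), zpow_zero]
      rw [this]
      simp
    · rw [Pi.single_eq_of_ne (Fin.succ_ne_zero l).symm, zpow_zero, one_mul]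
      have : (fun i : Fin d => T i.succ ^ ((Pi.single l.succ c : Fin (d + 1) → ℤ) i.succ))
          = fun i => T i.succ ^ ((Pi.single l c : Fin d → ℤ) i) := by
        funext i
        by_cases h : i = l
        · subst h; simp
        · rw [Pi.single_eq_of_ne h, Pi.single_eq_of_ne (fun h' => h (Fin.succ_injective _ h'))]
      rw [this]
      exact prod_single (fun i => T i.succ) l c

theorem red_comp {J : Type} {d k k' : ℕ} {A : J → Matrix (Fin d) (Fin k) ℤ} (hA : Red A)
    {C : Matrix (Fin k) (Fin k') ℤ} (hC : Function.Surjective C.mulVec) :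
    Red fun j => A j * C := by
  obtain ⟨r, hr⟩ := hA
  refine ⟨r, fun j hj => ?_⟩
  obtain ⟨s, v, lam, h1, h2, h3⟩ := hr j hj
  choose v' hv' using fun a => hC (v a)
  have hm : ∀ i a, (A i * C) *ᵥ v' a = A i *ᵥ v a := by
    intro i a
    rw [← Matrix.mulVec_mulVec]
    congr 1
    exact hv' a
  refine ⟨s, v', lam, ?_, ?_, ?_⟩
  · intro a b
    rw [hm]
    exact h1 a b
  · intro i hi hir
    obtain ⟨a, ha⟩ := h2 i hi hir
    exact ⟨a, by rw [hm]; exact ha⟩
  · intro a
    obtain ⟨i, hi, κ, hκ⟩ := h3 a
    refine ⟨i, hi, κ ᵥ* C, ?_⟩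
    rw [hm]
    show A j * C = A i * C + _
    conv_lhs => rw [hκ]
    rw [Matrix.add_mul, Matrix.vecMulVec_mul]

/-- Cubes and simplices. -/
theorem cubes {d k : ℕ} {X : Type*} [MeasurableSpace X] {μ : Measure X} [IsProbabilityMeasure μ]
    {T : Fin (d + 1) → Equiv.Perm X} (hTm : ∀ i, Measurable (T i).symm)
    (hT : ∀ i, MeasurePreserving (T i) μ μ) (hc : ∀ i j, Commute (T i) (T j))
    {C : Matrix (Fin (d + 1)) (Fin k) ℤ} (hC : Function.Surjective C.mulVec)
    (b : Fin (d + 1) → ℤ)
    {f : Fin (d + 1) → X → ℂ} (hf : ∀ j, MemLp (f j) ∞ μ) {g : Finset (Fin d) → X → ℂ}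
    (hg : ∀ e, MemLp (g e) ∞ μ) :
    ∀ᵐ x ∂μ, ∃ L : ℂ, Tendsto (fun M : Fin k → ℕ => (∏ l, (M l : ℂ))⁻¹ *
      ∑ m ∈ Fintype.piFinset (fun l => Finset.Icc 1 (M l)),
        (∏ j, f j ((T j ^ ((C *ᵥ fun l => ((m l : ℕ) : ℤ)) + b) 0 *
          (List.ofFn fun i : Fin d =>
            T i.succ ^ ((C *ᵥ fun l => ((m l : ℕ) : ℤ)) + b) i.succ).prod) x)) *
        ∏ e, g e ((List.ofFn fun i : Fin d => if i ∈ e then
            T i.succ ^ ((C *ᵥ fun l => ((m l : ℕ) : ℤ)) + b) i.succ else 1).prod x))
      atTop (𝓝 L) := by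
  classical
  set F : Fin (d + 1) ⊕ Finset (Fin d) → X → ℂ := Sum.elim f g with hF
  have hFm : ∀ j, MemLp (F j) ∞ μ := by
    rintro (j | e)
    · exact hf j
    · exact hg e
  have hact := act_prod hTm hT hc
  have h1 := red_conv (red_comp (cM_red d) hC) hact (fun j => cM d j *ᵥ b) hFm
  filter_upwards [h1] with x hx
  obtain ⟨L, hL⟩ := hx
  refine ⟨L, hL.congr fun M => ?_⟩
  congr 1
  refine Finset.sum_congr rfl fun m _ => ?_
  rw [Fintype.prod_sum_type]
  have hz : ∀ j, (cM d j * C) *ᵥ (fun l => ((m l : ℕ) : ℤ)) + cM d j *ᵥ b =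
      cM d j *ᵥ ((C *ᵥ fun l => ((m l : ℕ) : ℤ)) + b) := by
    intro j
    rw [← Matrix.mulVec_mulVec, Matrix.mulVec_add]
  set z : Fin (d + 1) → ℤ := (C *ᵥ fun l => ((m l : ℕ) : ℤ)) + b with hzdef
  congr 1
  · refine Finset.prod_congr rfl fun j _ => ?_
    show f j _ = _
    congr 2
    rw [hz, cM_inl_mulVec, prod_zpow_add T hc, prod_single]
    congr 1
    rw [List.ofFn_succ, List.prod_cons]
    simp only [Fin.cases_zero, Fin.cases_succ, zpow_zero, one_mul]
  · refine Finset.prod_congr rfl fun e _ => ?_
    show g e _ = _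
    congr 2
    rw [hz, cM_inr_mulVec, List.ofFn_succ, List.prod_cons]
    simp only [Fin.cases_zero, Fin.cases_succ, zpow_zero, one_mul]
    congr 2
    funext i
    by_cases hi : i ∈ e
    · rw [if_pos hi, if_pos hi]
    · rw [if_neg hi, if_neg hi, zpow_zero]

end Pool.Agent.Y311.UB
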