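import Pool.Agent.Y311.UB.Rel

/-!
# The cube extension and the control of weighted averages
-/

set_option autoImplicit false

open Filter Topology MeasureTheory ProbabilityTheory

noncomputable section

namespace Pool.Agent.Y311.UB

open Pool.Agent.W761.Box

variable {ι : Type} {G : Type} [AddCommGroup G] {k : ℕ}

/-- `R` controls the averages of `F` along `L` against all bounded weights `b i`, `i ∈ l`, where
`b i` is invariant in the direction `v i`. -/
def Ctl {X : Type} [MeasurableSpace X] (μ : Measure X) (Φ : G → Equiv.Perm X)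
    (L : (Fin k → ℤ) →+ G) (v : ι → Fin k → ℤ) (l : List ι) (F R : X → ℝ) : Prop :=
  ∀ᵐ x ∂μ, ∀ b : ι → (Fin k → ℤ) → ℝ, (∀ i m, |b i m| ≤ 1) →
    (∀ i ∈ l, ∀ m, b i (m + v i) = b i m) →
    AB (fun N => bz N fun m => F (Φ (L m) x) * (l.map fun i => b i m).prod) (R x)

theorem sqrt_le_one' {x : ℝ} (h : x ≤ 1) : Real.sqrt x ≤ 1 := by
  rw [← Real.sqrt_one]
  exact Real.sqrt_le_sqrt h

theorem abs_list_prod_le {α : Type*} (l : List α) (f : α → ℝ) (hf : ∀ a, |f a| ≤ 1) :
    |(l.map f).prod| ≤ 1 := by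
  induction l with
  | nil => simp
  | cons a l ih =>
    rw [List.map_cons, List.prod_cons, abs_mul]
    exact mul_le_one₀ (hf a) (abs_nonneg _) ih

theorem list_prod_mul {α : Type*} (l : List α) (f g : α → ℝ) :
    (l.map f).prod * (l.map g).prod = (l.map fun a => f a * g a).prod := by
  induction l with
  | nil => simp
  | cons a l ih =>
    simp only [List.map_cons, List.prod_cons]
    rw [← ih]
    ring

/-- the pointwise ergodic theorem along a homomorphism -/
theorem Act.conv {X : Type} [MeasurableSpace X] {μ : Measure X} [IsProbabilityMeasure μ]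
    {Φ : G → Equiv.Perm X} (h : Act μ Φ) (L : (Fin k → ℤ) →+ G) {F : X → ℝ} (hF : BMr F) :
    ∀ᵐ x ∂μ, ∃ c : ℝ, Tendsto (fun N => bz N fun m => F (Φ (L m) x)) atTop (𝓝 c) := by
  obtain ⟨hF1, C, hC⟩ := hF
  have h1 := dz k (fun i => (Φ (L (Pi.single i 1)) : X → X)) (fun i => h.mp _) F hF1 C hC
  have horb : ∀ (n : ℕ) (a : Fin n → G) (m : Fin n → ℕ) (x : X),
      orb n (fun i => (Φ (a i) : X → X)) m x = Φ (∑ i, m i • a i) x := by
    intro n
    induction n with
    | zero => intro a m x; simp [orb, h.zero]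
    | succ n ih =>
      intro a m x
      show (Φ (a 0) : X → X)^[m 0] (orb n (fun i => (Φ (Fin.tail a i) : X → X))
        (Fin.tail m) x) = _
      rw [ih, h.iterate, Fin.sum_univ_succ, h.add_apply]
      rfl
  filter_upwards [h1] with x hx
  obtain ⟨c, hc⟩ := hx
  refine ⟨c, hc.congr fun N => ?_⟩
  unfold bz
  congr 1
  funext m
  rw [horb]
  congr 3
  have h2 : cz m = ∑ i, m i • (Pi.single i 1 : Fin k → ℤ) := by
    funext j
    simp [cz, Finset.sum_apply, Pi.single_apply]
  rw [h2, map_sum]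
  simp only [map_nsmul]

theorem bz_bound {k : ℕ} {N : Fin k → ℕ} {a : (Fin k → ℤ) → ℝ} {C : ℝ} (hC : 0 ≤ C)
    (h : ∀ m, |a m| ≤ C) : |bz N a| ≤ C := bx_bound hC fun _ => h _

/-- One direction. -/
theorem ctl_one {X : Type} [MeasurableSpace X] {μ : Measure X} [IsProbabilityMeasure μ]
    {Φ : G → Equiv.Perm X} (h : Act μ Φ) (L : (Fin k → ℤ) →+ G) (v : ι → Fin k → ℤ) (i : ι)
    {F : X → ℝ} (hF : Measurable F) (hF1 : ∀ x, |F x| ≤ 1) {S : ℕ} (hS : 0 < S) :
    ∃ R : X → ℝ, Measurable R ∧ (∀ x, 0 ≤ R x ∧ R x ≤ 1) ∧ Ctl μ Φ L v [i] F R ∧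
      ∫ x, R x ^ 2 ∂μ ≤
        ∫ x, ((S : ℝ)⁻¹ * ∑ s ∈ Finset.range S, F (Φ (s • L (v i)) x)) ^ 2 ∂μ := by
  set κ : X → ℝ := fun x => ((S : ℝ)⁻¹ * ∑ s ∈ Finset.range S, F (Φ (s • L (v i)) x)) ^ 2 with hκ
  have hκm : Measurable κ := Measurable.pow_const
    ((Finset.measurable_fun_sum _ fun s _ => hF.comp (h.measurable _)).const_mul _) 2
  have hκ0 : ∀ x, 0 ≤ κ x := fun x => sq_nonneg _
  have hκ1 : ∀ x, κ x ≤ 1 := by
    intro x
    rw [hκ]
    simp only
    rw [← sq_abs]
    exact pow_le_one₀ (abs_nonneg _) (abs_avg_le zero_le_one (fun s => hF1 _) S)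
  have hκb : ∀ x, |κ x| ≤ 1 := fun x => by rw [abs_of_nonneg (hκ0 x)]; exact hκ1 x
  have hconv := h.conv L (F := κ) ⟨hκm, 1, hκb⟩
  set γ : X → ℝ := fun x => limUnder atTop fun N => bz N fun m => κ (Φ (L m) x) with hγdef
  have hγ : ∀ᵐ x ∂μ, Tendsto (fun N => bz N fun m => κ (Φ (L m) x)) atTop (𝓝 (γ x)) := by
    filter_upwards [hconv] with x hx
    exact tendsto_nhds_limUnder hx
  obtain ⟨hγ0, hγi, hγle⟩ := int_lim_le' (μ := μ) (φ := fun m : Fin k → ℕ => (Φ (L (cz m)) : X → X))
    (fun m => h.mp _) hκm zero_le_one hκb hκ0 (γ := γ) hγ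
  have hγ1 : ∀ᵐ x ∂μ, γ x ≤ 1 := by
    filter_upwards [hγ] with x hx
    refine le_of_tendsto hx (Eventually.of_forall fun N => ?_)
    exact (le_abs_self _).trans (bz_bound zero_le_one fun m => hκb _)
  obtain ⟨g, hgm, hgγ⟩ : ∃ g : X → ℝ, Measurable g ∧ γ =ᵐ[μ] g := by
    obtain ⟨g, hg, hgg⟩ := hγi.aestronglyMeasurable
    exact ⟨g, hg.measurable, hgg⟩
  refine ⟨fun x => Real.sqrt (max 0 (min 1 (g x))), ?_, ?_, ?_, ?_⟩
  · exact (measurable_const.max (measurable_const.min hgm)).sqrt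
  · intro x
    refine ⟨Real.sqrt_nonneg _, ?_⟩
    exact sqrt_le_one' (max_le zero_le_one (min_le_left _ _))
  · filter_upwards [hγ, hγ0, hγ1, hgγ] with x h1 h2 h3 h4 b hb hbi
    have h5 : max 0 (min 1 (g x)) = γ x := by
      rw [← h4, min_eq_right h3]
      exact max_eq_right h2
    rw [h5]
    have h6 := vdc_aux (a := fun m => F (Φ (L m) x)) (b := b i) (A := 1) (fun m => hF1 _)
      (hb i) (v := v i) (hbi i (by simp)) hS (c := γ x) ?_
    · simpa using h6
    · have h7 := AB.of_tendsto h1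
      rw [abs_of_nonneg h2] at h7
      have h8 : (fun N => bz N fun m => κ (Φ (L m) x)) = fun N => bz N fun m =>
          ((S : ℝ)⁻¹ * ∑ s ∈ Finset.range S, F (Φ (L (m + s • v i)) x)) ^ 2 := by
        funext N
        congr 1
        funext m
        rw [hκ]
        simp only
        congr 2
        refine Finset.sum_congr rfl fun s _ => ?_
        rw [← h.add_apply, map_add, map_nsmul, add_comm]
      rw [← h8]
      exact h7
  · refine le_trans (le_of_eq ?_) hγle
    refine integral_congr_ae ?_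
    filter_upwards [hγ0, hγ1, hgγ] with x h2 h3 h4
    have h2' : 0 ≤ γ x := h2
    have h5 : max 0 (min 1 (g x)) = γ x := by
      rw [← h4, min_eq_right h3]
      exact max_eq_right h2
    show Real.sqrt (max 0 (min 1 (g x))) ^ 2 = γ x
    rw [h5, Real.sq_sqrt h2']

/-- The inductive step for the control. -/
theorem ctl_step {X : Type} [MeasurableSpace X] {μ : Measure X} [IsProbabilityMeasure μ]
    {Φ : G → Equiv.Perm X} (h : Act μ Φ) (L : (Fin k → ℤ) →+ G) (v : ι → Fin k → ℤ) (i : ι)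
    (l : List ι) {F : X → ℝ} (hF1 : ∀ x, |F x| ≤ 1) {S : ℕ} (hS : 0 < S)
    {R : ℕ → ℕ → X → ℝ} (hRm : ∀ s s', Measurable (R s s'))
    (hR01 : ∀ s s' x, 0 ≤ R s s' x ∧ R s s' x ≤ 1)
    (hctl : ∀ s < S, ∀ s' < S, Ctl μ Φ L v l
      (fun x => F (Φ (s • L (v i)) x) * F (Φ (s' • L (v i)) x)) (R s s')) :
    ∃ R' : X → ℝ, Measurable R' ∧ (∀ x, 0 ≤ R' x ∧ R' x ≤ 1) ∧ Ctl μ Φ L v (i :: l) F R' ∧
      ∫ x, R' x ^ (2 ^ (l.length + 1)) ∂μ ≤
        (S : ℝ)⁻¹ ^ 2 * ∑ s ∈ Finset.range S, ∑ s' ∈ Finset.range S,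
          ∫ x, R s s' x ^ (2 ^ l.length) ∂μ := by
  have hS' : (0 : ℝ) < S := by exact_mod_cast hS
  set E : X → ℝ := fun x => (S : ℝ)⁻¹ ^ 2 * ∑ s ∈ Finset.range S, ∑ s' ∈ Finset.range S,
    R s s' x with hE
  have hE0 : ∀ x, 0 ≤ E x := fun x => mul_nonneg (by positivity)
    (Finset.sum_nonneg fun s _ => Finset.sum_nonneg fun s' _ => (hR01 s s' x).1)
  have hE1 : ∀ x, E x ≤ 1 := by
    intro x
    have h1 : ∑ s ∈ Finset.range S, ∑ s' ∈ Finset.range S, R s s' x ≤
        ∑ s ∈ Finset.range S, ∑ s' ∈ Finset.range S, (1 : ℝ) :=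
      Finset.sum_le_sum fun s _ => Finset.sum_le_sum fun s' _ => (hR01 s s' x).2
    rw [hE]
    simp only
    refine (mul_le_mul_of_nonneg_left h1 (by positivity)).trans (le_of_eq ?_)
    simp only [Finset.sum_const, Finset.card_range, nsmul_eq_mul]
    field_simp
  have hEm : Measurable E := (Finset.measurable_fun_sum _ fun s _ =>
    Finset.measurable_fun_sum _ fun s' _ => hRm s s').const_mul _
  refine ⟨fun x => Real.sqrt (E x), hEm.sqrt, fun x => ⟨Real.sqrt_nonneg _, sqrt_le_one' (hE1 x)⟩, ?_, ?_⟩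
  · have h1 : ∀ᵐ x ∂μ, ∀ s, s < S → ∀ s', s' < S → ∀ b : ι → (Fin k → ℤ) → ℝ,
        (∀ i m, |b i m| ≤ 1) → (∀ i ∈ l, ∀ m, b i (m + v i) = b i m) →
        AB (fun N => bz N fun m => (F (Φ (s • L (v i)) (Φ (L m) x)) *
          F (Φ (s' • L (v i)) (Φ (L m) x))) * (l.map fun i => b i m).prod) (R s s' x) := by
      rw [ae_all_iff]
      intro s
      rw [ae_all_iff]
      intro hs
      rw [ae_all_iff]
      intro s'
      rw [ae_all_iff]
      intro hs'
      exact hctl s hs s' hs'
    filter_upwards [h1] with x hx b hb hbi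
    have h2 := vdc (a := fun m => F (Φ (L m) x) * (l.map fun j => b j m).prod) (b := b i) (A := 1)
      (fun m => by
        rw [abs_mul]
        exact mul_le_one₀ (hF1 _) (abs_nonneg _) (abs_list_prod_le l _ fun j => hb j m))
      (hb i) (v := v i) (hbi i (by simp)) hS (c := fun s s' => R s s' x) ?_
    · have h3 : (fun N => bz N fun m => F (Φ (L m) x) * ((i :: l).map fun i => b i m).prod) =
          fun N => bz N fun m => F (Φ (L m) x) * (l.map fun j => b j m).prod * b i m := by
        funext N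
        congr 1
        funext m
        rw [List.map_cons, List.prod_cons]
        ring
      rw [h3]
      exact h2
    · intro s hs s' hs'
      have h4 := hx s hs s' hs' (fun j m => b j (m + s • v i) * b j (m + s' • v i))
        (fun j m => by
          rw [abs_mul]
          exact mul_le_one₀ (hb j _) (abs_nonneg _) (hb j _))
        (fun j hj m => by
          have e1 : m + v j + s • v i = (m + s • v i) + v j := by abel
          have e2 : m + v j + s' • v i = (m + s' • v i) + v j := by abel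
          rw [e1, e2, hbi j (List.mem_cons_of_mem _ hj), hbi j (List.mem_cons_of_mem _ hj)])
      have h5 : (fun N => bz N fun m => (fun m => F (Φ (L m) x) * (l.map fun j => b j m).prod)
          (m + s • v i) * (fun m => F (Φ (L m) x) * (l.map fun j => b j m).prod) (m + s' • v i)) =
          fun N => bz N fun m => (F (Φ (s • L (v i)) (Φ (L m) x)) *
          F (Φ (s' • L (v i)) (Φ (L m) x))) *
            (l.map fun j => b j (m + s • v i) * b j (m + s' • v i)).prod := by
        funext N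
        congr 1
        funext m
        rw [← list_prod_mul, ← h.add_apply, ← h.add_apply]
        have e1 : L (m + s • v i) = s • L (v i) + L m := by
          rw [map_add, map_nsmul, add_comm]
        have e2 : L (m + s' • v i) = s' • L (v i) + L m := by
          rw [map_add, map_nsmul, add_comm]
        simp only [e1, e2]
        ring
      rw [h5]
      exact h4
  · have hpow : ∀ x, Real.sqrt (E x) ^ (2 ^ (l.length + 1)) ≤
        (S : ℝ)⁻¹ ^ 2 * ∑ s ∈ Finset.range S, ∑ s' ∈ Finset.range S,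
          R s s' x ^ (2 ^ l.length) := by
      intro x
      rw [pow_succ, mul_comm (2 ^ l.length) 2, pow_mul, Real.sq_sqrt (hE0 x), hE]
      simp only
      have h1 := Real.pow_arith_mean_le_arith_mean_pow
        (Finset.range S ×ˢ Finset.range S) (fun _ => (S : ℝ)⁻¹ ^ 2) (fun p => R p.1 p.2 x)
        (fun _ _ => by positivity) (by
          rw [Finset.sum_const, Finset.card_product, Finset.card_range, nsmul_eq_mul]
          push_cast
          field_simp) (fun p _ => (hR01 _ _ _).1) (2 ^ l.length)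
      rw [← Finset.mul_sum, ← Finset.mul_sum, Finset.sum_product, Finset.sum_product] at h1
      exact h1
    have hRi : ∀ s s', Integrable (fun x => R s s' x ^ (2 ^ l.length)) μ := by
      intro s s'
      refine Integrable.of_bound ((hRm s s').pow_const _).aestronglyMeasurable 1
        (Eventually.of_forall fun x => ?_)
      rw [Real.norm_eq_abs, abs_of_nonneg (pow_nonneg (hR01 s s' x).1 _)]
      exact pow_le_one₀ (hR01 s s' x).1 (hR01 s s' x).2
    have hint : ∫ x, (S : ℝ)⁻¹ ^ 2 * ∑ s ∈ Finset.range S, ∑ s' ∈ Finset.range S,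
          R s s' x ^ (2 ^ l.length) ∂μ = (S : ℝ)⁻¹ ^ 2 * ∑ s ∈ Finset.range S,
          ∑ s' ∈ Finset.range S, ∫ x, R s s' x ^ (2 ^ l.length) ∂μ := by
      rw [integral_const_mul, integral_finsetSum]
      · congr 1
        refine Finset.sum_congr rfl fun s _ => ?_
        rw [integral_finsetSum]
        exact fun s' _ => hRi s s'
      · exact fun s _ => integrable_finsetSum _ fun s' _ => hRi s s'
    rw [← hint]
    refine integral_mono ?_ ?_ hpow
    · refine Integrable.of_bound (hEm.sqrt.pow_const _).aestronglyMeasurable 1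
        (Eventually.of_forall fun x => ?_)
      rw [Real.norm_eq_abs, abs_of_nonneg (pow_nonneg (Real.sqrt_nonneg _) _)]
      exact pow_le_one₀ (Real.sqrt_nonneg _) (sqrt_le_one' (hE1 x))
    · exact (integrable_finsetSum _ fun s _ => integrable_finsetSum _ fun s' _ =>
        hRi s s').const_mul _

/-- The cube extension in the directions `w i`, `i ∈ l`, with its control property. -/
def HasExt (w : ι → G) (lam : ι → G →+ ℤ) (L : (Fin k → ℤ) →+ G) (v : ι → Fin k → ℤ)
    (l : List ι) {X : Type} [MeasurableSpace X] (μ : Measure X) (Φ : G → Equiv.Perm X) : Prop :=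
  ∃ (Y : Type) (_ : MeasurableSpace Y) (_ : StandardBorelSpace Y) (ν : Measure Y)
    (_ : IsProbabilityMeasure ν) (Ψ : G → Equiv.Perm Y) (K : Type) (_ : Fintype K)
    (π : Option K → Y → X),
    Act ν Ψ ∧ MeasurePreserving (π none) ν μ ∧ (∀ g y, π none (Ψ g y) = Φ g (π none y)) ∧
    (∀ η, Measurable (π η)) ∧
    (∀ η : K, ∃ i ∈ l, ∀ y, π (some η) (Ψ (w i) y) = π (some η) y) ∧
    (∀ g, (∀ i ∈ l, lam i g = 0) → ∀ η y, π η (Ψ g y) = Φ g (π η y)) ∧
    (∀ F : X → ℝ, Measurable F → (∀ x, |F x| ≤ 1) → ∀ δ : ℝ, 0 < δ →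
      ∃ R : X → ℝ, Measurable R ∧ (∀ x, 0 ≤ R x ∧ R x ≤ 1) ∧ Ctl μ Φ L v l F R ∧
        ∫ x, R x ^ (2 ^ l.length) ∂μ ≤ ∫ y, ∏ η, F (π η y) ∂ν + δ)

theorem abs_prod_le_one {K : Type*} [Fintype K] (f : K → ℝ) (hf : ∀ a, |f a| ≤ 1) :
    |∏ a, f a| ≤ 1 := by
  rw [Finset.abs_prod]
  exact Finset.prod_le_one (fun a _ => abs_nonneg _) fun a _ => hf a

theorem hasExt (w : ι → G) (lam : ι → G →+ ℤ) (L : (Fin k → ℤ) →+ G) (v : ι → Fin k → ℤ)
    {X : Type} [MeasurableSpace X] [StandardBorelSpace X] {μ : Measure X}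
    [IsProbabilityMeasure μ] {Φ : G → Equiv.Perm X} (h : Act μ Φ) :
    ∀ (l : List ι) (_ : l ≠ []) (_ : l.Nodup) (_ : ∀ i ∈ l, lam i (w i) = 1)
      (_ : ∀ i ∈ l, ∀ j ∈ l, i ≠ j → lam i (w j) = 0) (_ : ∀ i ∈ l, L (v i) = w i),
      HasExt w lam L v l μ Φ
  | [], hne, _, _, _, _ => absurd rfl hne
  | [i], _, _, h1, _, hL => by
    have hw : L (v i) = w i := hL i (by simp)
    have hl1 : lam i (w i) = 1 := h1 i (by simp)
    refine ⟨X × X, inferInstance, inferInstance, relSq μ Φ (w i), inferInstance,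
      relΦ Φ (w i) (lam i), Unit, inferInstance,
      fun o => Option.elim o Prod.fst fun _ => Prod.snd, h.rel (lam i), relSq_fst μ Φ (w i),
      fun g y => rfl, ?_, ?_, ?_, ?_⟩
    · rintro (_ | _)
      · exact measurable_fst
      · exact measurable_snd
    · intro _
      refine ⟨i, by simp, fun y => ?_⟩
      show Φ (w i - lam i (w i) • w i) y.2 = y.2
      rw [hl1, one_smul, sub_self, h.zero_apply]
    · intro g hg η y
      have hg0 : lam i g = 0 := hg i (by simp)
      rcases η with _ | _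
      · rfl
      · show Φ (g - lam i g • w i) y.2 = Φ g y.2
        rw [hg0, zero_smul, sub_zero]
    · intro F hF hF1 δ hδ
      have hwin := h.window (w := w i) (f := F) ⟨hF, 1, hF1⟩
      have hev := (tendsto_order.mp hwin).2
        (∫ z, F z.1 * F z.2 ∂(relSq μ Φ (w i)) + δ) (by linarith)
      obtain ⟨S, hS, hSpos⟩ := (hev.and (eventually_gt_atTop 0)).exists
      obtain ⟨R, hRm, hR01, hctl, hint⟩ := ctl_one h L v i hF hF1 hSpos
      refine ⟨R, hRm, hR01, hctl, ?_⟩
      have e1 : ∫ y, ∏ η : Option Unit, F ((Option.elim η Prod.fst fun _ => Prod.snd :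
          X × X → X) y) ∂(relSq μ Φ (w i)) = ∫ z, F z.1 * F z.2 ∂(relSq μ Φ (w i)) := by
        congr 1
        funext z
        simp [Fintype.prod_option]
      rw [e1]
      have e2 : (2 : ℕ) ^ ([i] : List ι).length = 2 := by simp
      rw [e2]
      refine hint.trans ?_
      rw [hw]
      have e3 : ∫ x, ((S : ℝ)⁻¹ * ∑ s ∈ Finset.range S, F (Φ (s • w i) x)) ^ 2 ∂μ =
          (S : ℝ)⁻¹ ^ 2 * ∑ s ∈ Finset.range S, ∑ s' ∈ Finset.range S,
            ∫ x, F (Φ (s • w i) x) * F (Φ (s' • w i) x) ∂μ := by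
        have hFB : BMr F := ⟨hF, 1, hF1⟩
        have h3 : (fun x => ((S : ℝ)⁻¹ * ∑ s ∈ Finset.range S, F (Φ (s • w i) x)) ^ 2) = fun x =>
            (S : ℝ)⁻¹ ^ 2 * ∑ s ∈ Finset.range S, ∑ s' ∈ Finset.range S,
              F (Φ (s • w i) x) * F (Φ (s' • w i) x) := by
          funext x
          rw [mul_pow, sq (∑ s ∈ Finset.range S, F (Φ (s • w i) x)), Finset.sum_mul_sum]
        rw [h3, integral_const_mul, integral_finsetSum]
        · congr 1
          refine Finset.sum_congr rfl fun s _ => ?_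
          rw [integral_finsetSum]
          intro s' _
          exact ((hFB.comp (h.measurable _)).mul (hFB.comp (h.measurable _))).integrable
        · intro s _
          refine integrable_finsetSum _ fun s' _ => ?_
          exact ((hFB.comp (h.measurable _)).mul (hFB.comp (h.measurable _))).integrable
      rw [e3]
      exact hS.le
  | i :: j :: l, _, hnd, h1, h2, hL => by
    have hind := hasExt w lam L v h (j :: l) (by simp) (List.nodup_cons.mp hnd).2
      (fun a ha => h1 a (List.mem_cons_of_mem _ ha))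
      (fun a ha b hb => h2 a (List.mem_cons_of_mem _ ha) b (List.mem_cons_of_mem _ hb))
      (fun a ha => hL a (List.mem_cons_of_mem _ ha))
    obtain ⟨Y, mY, sY, ν, pν, Ψ, K, fK, π, hΨ, hπ0, heq, hπm, hπinv, hπeq, hctl⟩ := hind
    have hw : L (v i) = w i := hL i (by simp)
    have hl1 : lam i (w i) = 1 := h1 i (by simp)
    have hiw : ∀ a ∈ j :: l, lam a (w i) = 0 := by
      intro a ha
      refine h2 a (List.mem_cons_of_mem _ ha) i (by simp) ?_
      rintro rfl
      exact (List.nodup_cons.mp hnd).1 ha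
    refine ⟨Y × Y, inferInstance, inferInstance, relSq ν Ψ (w i), inferInstance,
      relΦ Ψ (w i) (lam i), K ⊕ Option K, inferInstance,
      fun o => Option.elim o (fun z => π none z.1)
        (Sum.elim (fun η z => π (some η) z.1) fun η z => π η z.2),
      hΨ.rel (lam i), hπ0.comp (relSq_fst ν Ψ (w i)), fun g y => heq g y.1, ?_, ?_, ?_, ?_⟩
    · rintro (_ | η | η)
      · exact (hπm none).comp measurable_fst
      · exact (hπm (some η)).comp measurable_fst
      · exact (hπm η).comp measurable_snd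
    · rintro (η | η)
      · obtain ⟨a, ha, hinv⟩ := hπinv η
        exact ⟨a, List.mem_cons_of_mem _ ha, fun y => hinv y.1⟩
      · refine ⟨i, by simp, fun y => ?_⟩
        show π η (Ψ (w i - lam i (w i) • w i) y.2) = π η y.2
        rw [hl1, one_smul, sub_self, hΨ.zero_apply]
    · intro g hg η y
      have hgi : lam i g = 0 := hg i (by simp)
      have hg' : ∀ a ∈ j :: l, lam a g = 0 := fun a ha => hg a (List.mem_cons_of_mem _ ha)
      rcases η with _ | η | η
      · exact hπeq g hg' none y.1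
      · exact hπeq g hg' (some η) y.1
      · show π η (Ψ (g - lam i g • w i) y.2) = Φ g (π η y.2)
        rw [hgi, zero_smul, sub_zero]
        exact hπeq g hg' η y.2
    · intro F hF hF1 δ hδ
      set Θ : Y → ℝ := fun y => ∏ η, F (π η y) with hΘ
      have hΘm : Measurable Θ := Finset.measurable_fun_prod _ fun η _ => hF.comp (hπm η)
      have hΘ1 : ∀ y, |Θ y| ≤ 1 := fun y => abs_prod_le_one _ fun η => hF1 _
      have hwin := hΨ.window (w := w i) (f := Θ) ⟨hΘm, 1, hΘ1⟩
      have hev := (tendsto_order.mp hwin).2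
        (∫ z, Θ z.1 * Θ z.2 ∂(relSq ν Ψ (w i)) + δ / 2) (by linarith)
      obtain ⟨S, hS, hSpos⟩ := (hev.and (eventually_gt_atTop 0)).exists
      have hS' : (0 : ℝ) < S := by exact_mod_cast hSpos
      have hFss : ∀ s s' : ℕ, Measurable (fun x => F (Φ (s • L (v i)) x) *
          F (Φ (s' • L (v i)) x)) := fun s s' =>
        (hF.comp (h.measurable _)).mul (hF.comp (h.measurable _))
      have hFss1 : ∀ (s s' : ℕ) x, |F (Φ (s • L (v i)) x) * F (Φ (s' • L (v i)) x)| ≤ 1 := by
        intro s s' x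
        rw [abs_mul]
        exact mul_le_one₀ (hF1 _) (abs_nonneg _) (hF1 _)
      choose R hRm hR01 hRctl hRint using fun s s' : ℕ =>
        hctl _ (hFss s s') (hFss1 s s') (δ / 2) (by linarith)
      obtain ⟨R', hRm', hR01', hctl', hint'⟩ := ctl_step h L v i (j :: l) hF1 hSpos hRm hR01
        (fun s _ s' _ => hRctl s s')
      refine ⟨R', hRm', hR01', hctl', ?_⟩
      have e0 : (i :: j :: l).length = (j :: l).length + 1 := rfl
      rw [e0]
      refine hint'.trans ?_
      have e1 : ∫ y, ∏ η : Option (K ⊕ Option K), F ((Option.elim η (fun z => π none z.1)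
          (Sum.elim (fun η z => π (some η) z.1) fun η z => π η z.2) : Y × Y → X) y)
          ∂(relSq ν Ψ (w i)) = ∫ z, Θ z.1 * Θ z.2 ∂(relSq ν Ψ (w i)) := by
        congr 1
        funext z
        rw [hΘ]
        simp [Fintype.prod_option, Fintype.prod_sum_type]
        ring
      rw [e1]
      have e2 : ∀ s s' : ℕ, ∫ x, R s s' x ^ (2 ^ (j :: l).length) ∂μ ≤
          ∫ y, Θ (Ψ (s • w i) y) * Θ (Ψ (s' • w i) y) ∂ν + δ / 2 := by
        intro s s'
        refine (hRint s s').trans (le_of_eq ?_)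
        congr 2
        funext y
        rw [hΘ]
        simp only
        rw [← Finset.prod_mul_distrib]
        refine Finset.prod_congr rfl fun η _ => ?_
        rw [hw, hπeq (s • w i) (fun a ha => by rw [map_nsmul, hiw a ha, nsmul_zero]),
          hπeq (s' • w i) (fun a ha => by rw [map_nsmul, hiw a ha, nsmul_zero])]
      have e3 : (S : ℝ)⁻¹ ^ 2 * ∑ s ∈ Finset.range S, ∑ s' ∈ Finset.range S,
          ∫ x, R s s' x ^ (2 ^ (j :: l).length) ∂μ ≤
          (S : ℝ)⁻¹ ^ 2 * ∑ s ∈ Finset.range S, ∑ s' ∈ Finset.range S,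
          (∫ y, Θ (Ψ (s • w i) y) * Θ (Ψ (s' • w i) y) ∂ν + δ / 2) :=
        mul_le_mul_of_nonneg_left (Finset.sum_le_sum fun s _ => Finset.sum_le_sum fun s' _ =>
          e2 s s') (by positivity)
      refine e3.trans ?_
      have e4 : (S : ℝ)⁻¹ ^ 2 * ∑ s ∈ Finset.range S, ∑ s' ∈ Finset.range S,
          (∫ y, Θ (Ψ (s • w i) y) * Θ (Ψ (s' • w i) y) ∂ν + δ / 2) =
          (S : ℝ)⁻¹ ^ 2 * ∑ s ∈ Finset.range S, ∑ s' ∈ Finset.range S,
          ∫ y, Θ (Ψ (s • w i) y) * Θ (Ψ (s' • w i) y) ∂ν + δ / 2 := by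
        simp only [Finset.sum_add_distrib, Finset.sum_const, Finset.card_range, nsmul_eq_mul]
        field_simp
      rw [e4]
      linarith [hS.le]

end Pool.Agent.Y311.UB
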