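import Pool.Agent.Y311.UB.Std

/-!
# Reducible families of matrices
-/

set_option autoImplicit false
set_option linter.unusedSectionVars false

open Filter Topology MeasureTheory ProbabilityTheory
open scoped ENNReal Matrix

noncomputable section

namespace Pool.Agent.Y311.UB

open Pool.Agent.W761.Box

variable {k : ℕ} {J : Type} [Fintype J] [DecidableEq J]

/-- The elimination condition. -/
def Red {J : Type} {d k : ℕ} (A : J → Matrix (Fin d) (Fin k) ℤ) : Prop :=
  ∃ r : J → ℕ, ∀ j, (∃ i, i ≠ j ∧ r i ≤ r j) →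
    ∃ (s : ℕ) (v : Fin s → Fin k → ℤ) (lam : Fin s → Fin d → ℤ),
      (∀ a b, lam a ⬝ᵥ (A j *ᵥ v b) = if a = b then 1 else 0) ∧
      (∀ i, i ≠ j → r i ≤ r j → ∃ a, A i *ᵥ v a = 0) ∧
      (∀ a, ∃ i, r i < r j ∧ ∃ κ : Fin k → ℤ, A j = A i + Matrix.vecMulVec (A j *ᵥ v a) κ)

/-- The homomorphism of a matrix. -/
def mH {d k : ℕ} (A : Matrix (Fin d) (Fin k) ℤ) : (Fin k → ℤ) →+ (Fin d → ℤ) :=
  A.mulVecLin.toAddMonoidHom

@[simp] theorem mH_apply {d k : ℕ} (A : Matrix (Fin d) (Fin k) ℤ) (m : Fin k → ℤ) :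
    mH A m = A *ᵥ m := rfl

/-- The dual functional. -/
def dH {d : ℕ} (a : Fin d → ℤ) : (Fin d → ℤ) →+ ℤ where
  toFun z := a ⬝ᵥ z
  map_zero' := dotProduct_zero a
  map_add' := dotProduct_add a

theorem vecMulVec_mulVec' {d : ℕ} (w : Fin d → ℤ) (κ m : Fin k → ℤ) :
    Matrix.vecMulVec w κ *ᵥ m = (κ ⬝ᵥ m) • w := by
  funext p
  simp only [Matrix.mulVec, dotProduct, Matrix.vecMulVec_apply, Pi.smul_apply,
    smul_eq_mul, Finset.sum_mul]
  refine Finset.sum_congr rfl fun q _ => ?_
  ring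

theorem conv_red {d : ℕ} {A : J → Matrix (Fin d) (Fin k) ℤ} (hA : Red A) :
    Conv (fun j => mH (A j)) (Finset.univ : Finset J) := by
  classical
  obtain ⟨r, hr⟩ := hA
  have key : ∀ (t : ℕ) (E : Finset J), E.card = t → (∀ j ∈ E, ∀ i, r i < r j → i ∈ E) →
      Conv (fun j => mH (A j)) E := by
    intro t
    induction t with
    | zero =>
      intro E hE _
      rw [Finset.card_eq_zero] at hE
      rw [hE]
      exact conv_empty _
    | succ t ih =>
      intro E hE hinit
      have hne : E.Nonempty := Finset.card_pos.mp (by omega)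
      obtain ⟨j0, hj0, hmax⟩ := Finset.exists_max_image E r hne
      have ihE : Conv (fun j => mH (A j)) (E.erase j0) := by
        apply ih
        · rw [Finset.card_erase_of_mem hj0]
          omega
        · intro j hj i hij
          refine Finset.mem_erase.mpr ⟨?_, hinit j (Finset.mem_of_mem_erase hj) i hij⟩
          rintro rfl
          have := hmax j (Finset.mem_of_mem_erase hj)
          omega
      by_cases hsing : ∃ i, i ≠ j0 ∧ r i ≤ r j0 ∧ i ∈ E
      · obtain ⟨i0, hi0, hri0, hi0E⟩ := hsing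
        obtain ⟨s, v, lam, h1, h2, h3⟩ := hr j0 ⟨i0, hi0, hri0⟩
        obtain ⟨a0, _⟩ := h2 i0 hi0 hri0
        refine elim (ι := Fin s) (fun j => mH (A j)) hj0 (fun a => A j0 *ᵥ v a)
          (fun a => dH (lam a)) v (List.finRange s) ?_ (List.nodup_finRange s) ?_ ?_ ?_ ?_ ?_ ihE
        · intro h0
          have := List.mem_finRange a0
          rw [h0] at this
          exact List.not_mem_nil this
        · intro a _
          have := h1 a a
          rwa [if_pos rfl] at this
        · intro a _ b _ hab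
          have := h1 a b
          rwa [if_neg hab] at this
        · intro a _
          rfl
        · intro j hjE hj
          obtain ⟨a, ha⟩ := h2 j hj (hmax j hjE)
          exact ⟨a, List.mem_finRange a, ha⟩
        · intro a _
          obtain ⟨i, hi, κ, hκ⟩ := h3 a
          refine ⟨i, hinit j0 hj0 i hi, ?_, fun m => κ ⬝ᵥ m, fun m => ?_⟩
          · rintro rfl
            omega
          · show A j0 *ᵥ m = A i *ᵥ m + (κ ⬝ᵥ m) • (A j0 *ᵥ v a)
            have e1 : A j0 *ᵥ m = (A i + Matrix.vecMulVec (A j0 *ᵥ v a) κ) *ᵥ m := by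
              rw [← hκ]
            rw [e1, Matrix.add_mulVec, vecMulVec_mulVec']
      · have hE1 : E = {j0} := by
          ext i
          rw [Finset.mem_singleton]
          constructor
          · intro hi
            by_contra hij
            exact hsing ⟨i, hij, hmax i hi, hi⟩
          · rintro rfl
            exact hj0
        rw [hE1]
        exact conv_single _ j0
  exact key _ Finset.univ rfl fun _ _ _ _ => Finset.mem_univ _

theorem mp_zpow' {X : Type*} [MeasurableSpace X] {μ : Measure X} {S : Equiv.Perm X}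
    (hS : MeasurePreserving S μ μ) (hS' : MeasurePreserving (S⁻¹ : Equiv.Perm X) μ μ) (z : ℤ) :
    MeasurePreserving (S ^ z : Equiv.Perm X) μ μ := by
  have key : ∀ (R : Equiv.Perm X), MeasurePreserving R μ μ → ∀ n : ℕ,
      MeasurePreserving (R ^ n : Equiv.Perm X) μ μ := by
    intro R hR n
    induction n with
    | zero => exact MeasurePreserving.id μ
    | succ n ih =>
      rw [pow_succ]
      exact ih.comp hR
  obtain ⟨n, rfl | rfl⟩ := z.eq_nat_or_neg
  · rw [zpow_natCast]
    exact key S hS n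
  · rw [zpow_neg, zpow_natCast, ← inv_pow]
    exact key _ hS' n

theorem mp_prod' {X : Type*} [MeasurableSpace X] {μ : Measure X} {d : ℕ} {T : Fin d → Equiv.Perm X}
    (hT : ∀ i, MeasurePreserving (T i) μ μ)
    (hT' : ∀ i, MeasurePreserving ((T i)⁻¹ : Equiv.Perm X) μ μ) (a : Fin d → ℤ) :
    MeasurePreserving (List.ofFn fun i => T i ^ a i).prod μ μ := by
  induction d with
  | zero =>
    rw [List.ofFn_zero, List.prod_nil]
    exact MeasurePreserving.id μ
  | succ d ih =>
    rw [List.ofFn_succ, List.prod_cons]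
    exact (mp_zpow' (hT 0) (hT' 0) _).comp
      (ih (T := fun i => T i.succ) (fun i => hT _) (fun i => hT' _) _)

theorem BM_of_memLp' {Y : Type*} [MeasurableSpace Y] {ν : Measure Y} {f : Y → ℂ}
    (hf : MemLp f ∞ ν) : ∃ g : Y → ℂ, BM g ∧ f =ᵐ[ν] g := by
  obtain ⟨g, hgm, hfg⟩ := hf.1
  have hg : MemLp g ∞ ν := (memLp_congr_ae hfg).mp hf
  obtain ⟨C, hC⟩ : ∃ C : ℝ, ∀ᵐ x ∂ν, ‖g x‖ ≤ C := by
    have h1 : eLpNormEssSup g ν < ∞ := by
      have := hg.2
      rwa [eLpNorm_exponent_top] at this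
    refine ⟨(eLpNormEssSup g ν).toReal, ?_⟩
    filter_upwards [ae_le_eLpNormEssSup (f := g) (μ := ν)] with x hx
    rw [← toReal_enorm]
    exact ENNReal.toReal_mono h1.ne hx
  refine ⟨fun x => if ‖g x‖ ≤ C then g x else 0, ⟨?_, |C|, fun x => ?_⟩, ?_⟩
  · exact Measurable.ite (measurableSet_le hgm.measurable.norm measurable_const) hgm.measurable
      measurable_const
  · show ‖if ‖g x‖ ≤ C then g x else 0‖ ≤ |C|
    split_ifs with h
    · exact h.trans (le_abs_self _)
    · simp
  · filter_upwards [hfg, hC] with x hx hx'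
    rw [hx, if_pos hx']

/-- The action of `ℤ^d` generated by commuting maps. -/
theorem act_prod {d : ℕ} {X : Type*} [MeasurableSpace X] {μ : Measure X}
    {T : Fin d → Equiv.Perm X} (hTm : ∀ i, Measurable (T i).symm)
    (hT : ∀ i, MeasurePreserving (T i) μ μ) (hc : ∀ i j, Commute (T i) (T j)) :
    Act μ fun z : Fin d → ℤ => (List.ofFn fun i => T i ^ z i).prod := by
  refine ⟨fun a b => prod_zpow_add T hc a b, ?_, fun a => ?_⟩
  · simp
  · refine mp_prod' hT (fun i => ?_) a
    let e : X ≃ᵐ X := ⟨T i, (hT i).measurable, hTm i⟩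
    exact (hT i).symm e

/-- Sums over `[1, M]` and over `[0, M)`. -/
theorem sum_Icc_box {k : ℕ} {β : Type*} [AddCommMonoid β] (M : Fin k → ℕ)
    (a : (Fin k → ℕ) → β) :
    ∑ m ∈ Fintype.piFinset (fun l => Finset.Icc 1 (M l)), a m =
      ∑ m ∈ Fintype.piFinset (fun l => Finset.range (M l)), a (m + 1) := by
  symm
  refine Finset.sum_bij' (fun m _ => m + 1) (fun m _ => m - 1) ?_ ?_ ?_ ?_ ?_
  · intro m hm
    rw [Fintype.mem_piFinset] at hm ⊢
    intro l
    have := Finset.mem_range.mp (hm l)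
    rw [Finset.mem_Icc]
    simp only [Pi.add_apply, Pi.one_apply]
    omega
  · intro m hm
    rw [Fintype.mem_piFinset] at hm ⊢
    intro l
    have := Finset.mem_Icc.mp (hm l)
    rw [Finset.mem_range]
    simp only [Pi.sub_apply, Pi.one_apply]
    omega
  · intro m hm
    funext l
    simp
  · intro m hm
    rw [Fintype.mem_piFinset] at hm
    funext l
    have := Finset.mem_Icc.mp (hm l)
    simp only [Pi.add_apply, Pi.sub_apply, Pi.one_apply]
    omega
  · intro m hm
    rfl

/-- The convergence theorem for reducible families, for an abstract action. -/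
theorem red_conv {d : ℕ} {A : J → Matrix (Fin d) (Fin k) ℤ} (hA : Red A)
    {X : Type*} [MeasurableSpace X] {μ : Measure X} [IsProbabilityMeasure μ]
    {Φ : (Fin d → ℤ) → Equiv.Perm X} (hΦ : Act μ Φ) (c : J → Fin d → ℤ)
    {f : J → X → ℂ} (hf : ∀ j, MemLp (f j) ∞ μ) :
    ∀ᵐ x ∂μ, ∃ L : ℂ, Tendsto (fun M : Fin k → ℕ => (∏ l, (M l : ℂ))⁻¹ *
      ∑ m ∈ Fintype.piFinset (fun l => Finset.Icc 1 (M l)),
        ∏ j, f j (Φ (A j *ᵥ (fun l => ((m l : ℕ) : ℤ)) + c j) x)) atTop (𝓝 L) := by
  choose g hgB hfg using fun j => BM_of_memLp' (hf j)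
  set b : J → Fin d → ℤ := fun j => A j *ᵥ 1 + c j with hb
  have hG : ∀ j, BM (fun x => g j (Φ (b j) x)) := by
    intro j
    obtain ⟨h1, C, hC⟩ := hgB j
    exact ⟨h1.comp (hΦ.mp (b j)).measurable, C, fun x => hC _⟩
  have hmain := conv_cplx (conv_red hA) hΦ hG
  have hae : ∀ᵐ x ∂μ, ∀ (j : J) (z : Fin d → ℤ), f j (Φ z x) = g j (Φ z x) := by
    rw [ae_all_iff]
    intro j
    rw [ae_all_iff]
    intro z
    exact (hΦ.mp z).quasiMeasurePreserving.ae_eq_comp (hfg j)
  filter_upwards [hmain, hae] with x hx hx2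
  obtain ⟨L, hL⟩ := hx
  refine ⟨L, hL.congr fun M => ?_⟩
  rw [bxc, sum_Icc_box]
  congr 1
  refine Finset.sum_congr rfl fun m _ => Finset.prod_congr rfl fun j _ => ?_
  rw [hx2]
  congr 1
  show Φ (b j) (Φ (A j *ᵥ cz m) x) = _
  rw [← hΦ.add_apply]
  congr 2
  have e1 : (fun l => (((m + 1 : Fin k → ℕ) l : ℕ) : ℤ)) = cz m + 1 := by
    funext l
    simp [cz]
  rw [e1, Matrix.mulVec_add, hb]
  simp only
  abel

end Pool.Agent.Y311.UB
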