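import Pool.Agent.Y311.UB.Box

/-!
# The relatively independent square over the invariant sets of one element
-/

set_option autoImplicit false

open Filter Topology MeasureTheory ProbabilityTheory

noncomputable section

namespace Pool.Agent.Y311.UB

open Pool.Agent.W761.Box

/-- A measure preserving action of the additive group `G`. -/
structure Act {X G : Type*} [MeasurableSpace X] [AddCommGroup G] (μ : Measure X)
    (Φ : G → Equiv.Perm X) : Prop where
  add : ∀ a b, Φ (a + b) = Φ a * Φ b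
  zero : Φ 0 = 1
  mp : ∀ a, MeasurePreserving (Φ a) μ μ

/-- bounded measurable real functions -/
def BMr {X : Type*} [MeasurableSpace X] (f : X → ℝ) : Prop := Measurable f ∧ ∃ C : ℝ, ∀ x, |f x| ≤ C

section basic

variable {X G : Type*} [MeasurableSpace X] [AddCommGroup G] {μ : Measure X}
  {Φ : G → Equiv.Perm X}

theorem Act.add_apply (h : Act μ Φ) (a b : G) (x : X) : Φ (a + b) x = Φ a (Φ b x) := by
  rw [h.add]; rfl

theorem Act.zero_apply (h : Act μ Φ) (x : X) : Φ 0 x = x := by
  rw [h.zero]; rfl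

theorem Act.comm_apply (h : Act μ Φ) (a b : G) (x : X) : Φ a (Φ b x) = Φ b (Φ a x) := by
  rw [← h.add_apply, add_comm, h.add_apply]

theorem Act.neg_apply (h : Act μ Φ) (a : G) (x : X) : Φ (-a) (Φ a x) = x := by
  rw [← h.add_apply, neg_add_cancel, h.zero_apply]

theorem Act.apply_neg (h : Act μ Φ) (a : G) (x : X) : Φ a (Φ (-a) x) = x := by
  rw [← h.add_apply, add_neg_cancel, h.zero_apply]

theorem Act.iterate (h : Act μ Φ) (a : G) (n : ℕ) (x : X) : (Φ a)^[n] x = Φ (n • a) x := by
  induction n generalizing x with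
  | zero => simp [h.zero]
  | succ n ih => rw [Function.iterate_succ_apply, ih, succ_nsmul, h.add_apply]

theorem Act.measurable (h : Act μ Φ) (a : G) : Measurable (Φ a) := (h.mp a).measurable

theorem BMr.comp {f : X → ℝ} (hf : BMr f) {Y : Type*} [MeasurableSpace Y] {φ : Y → X}
    (hφ : Measurable φ) : BMr (fun y => f (φ y)) :=
  ⟨hf.1.comp hφ, hf.2.imp fun _ hC y => hC _⟩

theorem BMr.mul {f g : X → ℝ} (hf : BMr f) (hg : BMr g) : BMr (fun x => f x * g x) := by
  obtain ⟨hf1, C, hC⟩ := hf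
  obtain ⟨hg1, D, hD⟩ := hg
  refine ⟨hf1.mul hg1, C * D, fun x => ?_⟩
  rw [abs_mul]
  exact mul_le_mul (hC x) (hD x) (abs_nonneg _) ((abs_nonneg _).trans (hC x))

theorem BMr.integrable {f : X → ℝ} (hf : BMr f) [IsFiniteMeasure μ] : Integrable f μ := by
  obtain ⟨hf1, C, hC⟩ := hf
  exact Integrable.of_bound hf1.aestronglyMeasurable C (Eventually.of_forall hC)

theorem BMr.one : BMr (fun _ : X => (1 : ℝ)) := ⟨measurable_const, 1, fun _ => by simp⟩

theorem BMr.indicator {s : Set X} (hs : MeasurableSet s) : BMr (s.indicator fun _ => (1 : ℝ)) :=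
  ⟨measurable_const.indicator hs, 1, fun x => by
    by_cases h : x ∈ s <;> simp [h]⟩

/-- the σ-algebra of the sets invariant under `Φ w` -/
abbrev inv (Φ : G → Equiv.Perm X) (w : G) : MeasurableSpace X :=
  MeasurableSpace.invariants (Φ w : X → X)

theorem inv_le (Φ : G → Equiv.Perm X) (w : G) : inv Φ w ≤ ‹MeasurableSpace X› :=
  MeasurableSpace.invariants_le _

/-- preimages of invariant sets under the action are invariant -/
theorem Act.preimage_inv (h : Act μ Φ) (w g : G) {s : Set X} (hs : MeasurableSet[inv Φ w] s) :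
    MeasurableSet[inv Φ w] (Φ g ⁻¹' s) := by
  rw [MeasurableSpace.measurableSet_invariants] at hs ⊢
  refine ⟨h.measurable g hs.1, ?_⟩
  ext x
  simp only [Set.mem_preimage]
  rw [h.comm_apply]
  have := Set.ext_iff.mp hs.2 (Φ g x)
  simpa using this

theorem Act.measurable_inv (h : Act μ Φ) (w g : G) : Measurable[inv Φ w, inv Φ w] (Φ g) :=
  fun _ hs => h.preimage_inv w g hs

theorem Act.inv_apply (h : Act μ Φ) {w : G} {f : X → ℝ} (hf : Measurable[inv Φ w] f) (x : X) :
    f (Φ w x) = f x := congrFun (MeasurableSpace.comp_eq_of_measurable_invariants hf) x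

theorem Act.inv_zsmul (h : Act μ Φ) {w : G} {f : X → ℝ} (hf : ∀ x, f (Φ w x) = f x) (n : ℤ)
    (x : X) : f (Φ (n • w) x) = f x := by
  have hnat : ∀ (n : ℕ) (x : X), f (Φ (n • w) x) = f x := by
    intro n
    induction n with
    | zero => intro x; rw [zero_nsmul, h.zero_apply]
    | succ n ih => intro x; rw [succ_nsmul, h.add_apply, ih, hf]
  obtain ⟨n, rfl | rfl⟩ := n.eq_nat_or_neg
  · rw [natCast_zsmul]
    exact hnat n x
  · rw [neg_smul, natCast_zsmul]
    rw [← hnat n (Φ (-(n • w)) x), h.apply_neg]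

/-- conditional expectation commutes with the action -/
theorem Act.condExp_comp (h : Act μ Φ) [IsProbabilityMeasure μ] (w g : G) {f : X → ℝ}
    (hf : BMr f) : μ[fun x => f (Φ g x) | inv Φ w] =ᵐ[μ] fun x => (μ[f | inv Φ w]) (Φ g x) := by
  symm
  have hm := inv_le Φ w
  have hint : Integrable (μ[f | inv Φ w]) μ := integrable_condExp
  refine ae_eq_condExp_of_forall_setIntegral_eq hm (hf.comp (h.measurable g)).integrable
    (fun s _ _ => ((h.mp g).integrable_comp_of_integrable hint).integrableOn) ?_ ?_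
  · intro s hs _
    set s' := Φ (-g) ⁻¹' s with hs'
    have hs'm : MeasurableSet[inv Φ w] s' := h.preimage_inv w (-g) hs
    have hss : Φ g ⁻¹' s' = s := by
      ext x
      simp [hs', h.neg_apply]
    rw [← hss]
    have h1 : ∀ F : X → ℝ, AEStronglyMeasurable F μ →
        ∫ x in Φ g ⁻¹' s', F (Φ g x) ∂μ = ∫ x in s', F x ∂μ := by
      intro F hF
      have h2 := setIntegral_map (μ := μ) (g := Φ g) (f := F) (hm _ hs'm)
        (by rw [(h.mp g).map_eq]; exact hF) (h.measurable g).aemeasurable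
      rw [(h.mp g).map_eq] at h2
      exact h2.symm
    rw [h1 _ hint.aestronglyMeasurable, h1 _ hf.1.aestronglyMeasurable]
    exact setIntegral_condExp hm hf.integrable hs'm
  · exact (stronglyMeasurable_condExp.measurable.comp
      (h.measurable_inv w g)).stronglyMeasurable.aestronglyMeasurable

/-- Birkhoff's theorem for the action -/
theorem Act.birkhoff (h : Act μ Φ) [IsProbabilityMeasure μ] (w : G) {f : X → ℝ} (hf : BMr f) :
    ∀ᵐ x ∂μ, Tendsto (fun S : ℕ => (S : ℝ)⁻¹ * ∑ s ∈ Finset.range S, f (Φ (s • w) x)) atTop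
      (𝓝 ((μ[f | inv Φ w]) x)) := by
  obtain ⟨hf1, C, hC⟩ := hf
  have h1 := H165R3.BPE.birkhoff (h.mp w) f hf1 C hC
  filter_upwards [h1] with x hx
  refine hx.congr fun n => ?_
  simp only [h.iterate]

theorem abs_avg_le {f : ℕ → ℝ} {C : ℝ} (hC0 : 0 ≤ C) (hC : ∀ n, |f n| ≤ C) (S : ℕ) :
    |(S : ℝ)⁻¹ * ∑ s ∈ Finset.range S, f s| ≤ C := by
  rw [abs_mul, abs_inv, Nat.abs_cast]
  rcases Nat.eq_zero_or_pos S with h0 | h0
  · subst h0
    simpa using hC0
  · rw [inv_mul_le_iff₀ (by exact_mod_cast h0)]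
    refine (Finset.abs_sum_le_sum_abs _ _).trans ?_
    refine (Finset.sum_le_sum fun i _ => hC _).trans ?_
    rw [Finset.sum_const, Finset.card_range, nsmul_eq_mul]

/-- The mean ergodic theorem in the form needed here. -/
theorem Act.mean_sq (h : Act μ Φ) [IsProbabilityMeasure μ] (w : G) {f : X → ℝ} (hf : BMr f) :
    Tendsto (fun S : ℕ => ∫ x, ((S : ℝ)⁻¹ * ∑ s ∈ Finset.range S, f (Φ (s • w) x)) ^ 2 ∂μ) atTop
      (𝓝 (∫ x, (μ[f | inv Φ w]) x ^ 2 ∂μ)) := by
  have hb := h.birkhoff w hf
  obtain ⟨hf1, C, hC⟩ := hf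
  have hC' : ∀ x, |f x| ≤ |C| := fun x => (hC x).trans (le_abs_self _)
  refine tendsto_integral_of_dominated_convergence (fun _ => |C| ^ 2) ?_ (integrable_const _) ?_ ?_
  · intro S
    refine Measurable.aestronglyMeasurable (Measurable.pow_const ?_ 2)
    exact (Finset.measurable_fun_sum _ fun s _ => hf1.comp (h.measurable _)).const_mul _
  · intro S
    refine Eventually.of_forall fun x => ?_
    rw [Real.norm_eq_abs, abs_pow]
    exact pow_le_pow_left₀ (abs_nonneg _) (abs_avg_le (abs_nonneg _) (fun s => hC' _) S) 2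
  · filter_upwards [hb] with x hx
    exact hx.pow 2

end basic

section rel

variable {X G : Type*} [MeasurableSpace X] [StandardBorelSpace X] [AddCommGroup G]
  (μ : Measure X) [IsProbabilityMeasure μ] (Φ : G → Equiv.Perm X) (w : G)

/-- the disintegration over the invariant sets -/
def relK : Kernel X X :=
  (condExpKernel μ (inv Φ w)).comap id (measurable_id'' (inv_le Φ w))

instance : IsMarkovKernel (relK μ Φ w) := by
  unfold relK
  infer_instance

/-- the relatively independent square -/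
def relSq : Measure (X × X) := μ ⊗ₘ relK μ Φ w

instance : IsProbabilityMeasure (relSq μ Φ w) := by
  unfold relSq
  infer_instance

theorem relSq_fst : MeasurePreserving Prod.fst (relSq μ Φ w) μ := by
  refine ⟨measurable_fst, ?_⟩
  have := Measure.fst_compProd μ (relK μ Φ w)
  exact this

variable {μ Φ w}

theorem int_relSq {f g : X → ℝ} (hf : BMr f) (hg : BMr g) :
    ∫ z, f z.1 * g z.2 ∂(relSq μ Φ w) = ∫ x, (μ[f | inv Φ w]) x * (μ[g | inv Φ w]) x ∂μ := by
  have hm := inv_le Φ w
  have h1 : ∫ z, f z.1 * g z.2 ∂(relSq μ Φ w) = ∫ x, ∫ y, f x * g y ∂(relK μ Φ w x) ∂μ := by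
    unfold relSq
    refine Measure.integral_compProd (f := fun z : X × X => f z.1 * g z.2) ?_
    exact ((hf.comp measurable_fst).mul (hg.comp measurable_snd)).integrable
  rw [h1]
  have h2 : (fun x => ∫ y, g y ∂(relK μ Φ w x)) =ᵐ[μ] μ[g | inv Φ w] := by
    have := condExp_ae_eq_integral_condExpKernel (μ := μ) hm hg.integrable
    filter_upwards [this] with x hx
    rw [hx]
    rfl
  have h3 : ∫ x, ∫ y, f x * g y ∂(relK μ Φ w x) ∂μ = ∫ x, f x * (μ[g | inv Φ w]) x ∂μ := by
    refine integral_congr_ae ?_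
    filter_upwards [h2] with x hx
    rw [integral_const_mul, hx]
  rw [h3]
  -- pull out
  have hfi : Integrable f μ := hf.integrable
  obtain ⟨hf1, C, hC⟩ := hf
  have h4 : Integrable (f * μ[g | inv Φ w]) μ := by
    refine Integrable.bdd_mul (c := C) integrable_condExp hf1.aestronglyMeasurable ?_
    exact Eventually.of_forall hC
  have h5 : μ[f * μ[g | inv Φ w] | inv Φ w] =ᵐ[μ] μ[f | inv Φ w] * μ[g | inv Φ w] :=
    condExp_mul_of_stronglyMeasurable_right stronglyMeasurable_condExp h4 hfi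
  have h6 := integral_condExp (μ := μ) hm (f := f * μ[g | inv Φ w])
  have h7 : ∫ x, f x * (μ[g | inv Φ w]) x ∂μ = ∫ x, (f * μ[g | inv Φ w]) x ∂μ := rfl
  rw [h7, ← h6]
  exact integral_congr_ae h5

/-- the lifted action: `w` moves only the first coordinate -/
def relΦ (Φ : G → Equiv.Perm X) (w : G) (l : G →+ ℤ) (g : G) : Equiv.Perm (X × X) :=
  Equiv.prodCongr (Φ g) (Φ (g - l g • w))

theorem relΦ_apply (Φ : G → Equiv.Perm X) (w : G) (l : G →+ ℤ) (g : G) (z : X × X) :
    relΦ Φ w l g z = (Φ g z.1, Φ (g - l g • w) z.2) := rfl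

theorem Act.rel (h : Act μ Φ) (l : G →+ ℤ) : Act (relSq μ Φ w) (relΦ Φ w l) := by
  refine ⟨fun a b => ?_, ?_, fun g => ?_⟩
  · ext z
    · show Φ (a + b) z.1 = Φ a (Φ b z.1)
      exact h.add_apply _ _ _
    · show Φ (a + b - l (a + b) • w) z.2 = Φ (a - l a • w) (Φ (b - l b • w) z.2)
      rw [← h.add_apply, map_add, add_smul]
      congr 2
      abel
  · ext z
    · show Φ 0 z.1 = z.1
      exact h.zero_apply _
    · show Φ (0 - l 0 • w) z.2 = z.2
      rw [map_zero, zero_smul, sub_zero, h.zero_apply]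
  · have hmeas : Measurable (relΦ Φ w l g) :=
      ((h.measurable g).comp measurable_fst).prodMk
        ((h.measurable (g - l g • w)).comp measurable_snd)
    refine ⟨hmeas, ?_⟩
    have : IsFiniteMeasure (Measure.map (relΦ Φ w l g) (relSq μ Φ w)) :=
      Measure.isFiniteMeasure_map _ _
    refine Measure.ext_prod fun {s t} hs ht => ?_
    rw [Measure.map_apply hmeas (hs.prod ht)]
    have hpre : relΦ Φ w l g ⁻¹' s ×ˢ t = (Φ g ⁻¹' s) ×ˢ (Φ (g - l g • w) ⁻¹' t) := by
      ext z
      simp [relΦ_apply]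
    rw [hpre]
    -- measure of rectangles through integrals
    have hrect : ∀ {A B : Set X}, MeasurableSet A → MeasurableSet B →
        (relSq μ Φ w).real (A ×ˢ B) = ∫ x, (μ[A.indicator (fun _ => (1 : ℝ)) | inv Φ w]) x *
          (μ[B.indicator (fun _ => (1 : ℝ)) | inv Φ w]) x ∂μ := by
      intro A B hA hB
      rw [← int_relSq (BMr.indicator hA) (BMr.indicator hB), ← integral_indicator_one (hA.prod hB)]
      congr 1
      funext z
      by_cases h1 : z.1 ∈ A <;> by_cases h2 : z.2 ∈ B <;> simp [Set.indicator, h1, h2]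
    have hreal : (relSq μ Φ w).real ((Φ g ⁻¹' s) ×ˢ (Φ (g - l g • w) ⁻¹' t)) =
        (relSq μ Φ w).real (s ×ˢ t) := by
      rw [hrect (h.measurable _ hs) (h.measurable _ ht), hrect hs ht]
      have e1 := h.condExp_comp w g (BMr.indicator hs)
      have e2 := h.condExp_comp w (g - l g • w) (BMr.indicator ht)
      have e3 : ∀ x, (μ[t.indicator (fun _ => (1 : ℝ)) | inv Φ w]) (Φ (g - l g • w) x) =
          (μ[t.indicator (fun _ => (1 : ℝ)) | inv Φ w]) (Φ g x) := by
        intro x
        have h5 := h.inv_zsmul (w := w) (f := μ[t.indicator (fun _ => (1 : ℝ)) | inv Φ w])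
          (h.inv_apply stronglyMeasurable_condExp.measurable) (-l g) (Φ g x)
        rw [← h5, ← h.add_apply]
        have h7 : -l g • w + g = g - l g • w := by
          rw [neg_smul, neg_add_eq_sub]
        rw [h7]
      have e4 : ∫ x, (μ[(Φ g ⁻¹' s).indicator (fun _ => (1 : ℝ)) | inv Φ w]) x *
          (μ[(Φ (g - l g • w) ⁻¹' t).indicator (fun _ => (1 : ℝ)) | inv Φ w]) x ∂μ =
          ∫ x, (μ[s.indicator (fun _ => (1 : ℝ)) | inv Φ w]) (Φ g x) *
          (μ[t.indicator (fun _ => (1 : ℝ)) | inv Φ w]) (Φ g x) ∂μ := by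
        refine integral_congr_ae ?_
        filter_upwards [e1, e2] with x h1 h2
        rw [← e3 x]
        exact congrArg₂ (· * ·) h1 h2
      rw [e4]
      have h6 := integral_map (μ := μ) (φ := Φ g) (h.measurable g).aemeasurable
        (f := fun x => (μ[s.indicator (fun _ => (1 : ℝ)) | inv Φ w]) x *
          (μ[t.indicator (fun _ => (1 : ℝ)) | inv Φ w]) x) (by
            rw [(h.mp g).map_eq]
            exact integrable_condExp.aestronglyMeasurable.mul
              integrable_condExp.aestronglyMeasurable)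
      rw [(h.mp g).map_eq] at h6
      exact h6.symm
    rw [← ENNReal.toReal_eq_toReal_iff' (measure_ne_top _ _) (measure_ne_top _ _)]
    exact hreal

/-- The correlation formula: windows converge to the relative square. -/
theorem Act.window (h : Act μ Φ) {f : X → ℝ} (hf : BMr f) :
    Tendsto (fun S : ℕ => (S : ℝ)⁻¹ ^ 2 * ∑ s ∈ Finset.range S, ∑ s' ∈ Finset.range S,
      ∫ x, f (Φ (s • w) x) * f (Φ (s' • w) x) ∂μ) atTop
      (𝓝 (∫ z, f z.1 * f z.2 ∂(relSq μ Φ w))) := by
  rw [int_relSq hf hf]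
  have h1 := h.mean_sq w hf
  have h2 : ∫ x, (μ[f | inv Φ w]) x ^ 2 ∂μ =
      ∫ x, (μ[f | inv Φ w]) x * (μ[f | inv Φ w]) x ∂μ := by
    congr 1
    funext x
    ring
  rw [← h2]
  refine h1.congr fun S => ?_
  have h3 : (fun x => ((S : ℝ)⁻¹ * ∑ s ∈ Finset.range S, f (Φ (s • w) x)) ^ 2) = fun x =>
      (S : ℝ)⁻¹ ^ 2 * ∑ s ∈ Finset.range S, ∑ s' ∈ Finset.range S,
        f (Φ (s • w) x) * f (Φ (s' • w) x) := by
    funext x
    rw [mul_pow, sq (∑ s ∈ Finset.range S, f (Φ (s • w) x)), Finset.sum_mul_sum]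
  rw [h3, integral_const_mul, integral_finsetSum]
  · congr 1
    refine Finset.sum_congr rfl fun s _ => ?_
    rw [integral_finsetSum]
    intro s' _
    exact ((hf.comp (h.measurable _)).mul (hf.comp (h.measurable _))).integrable
  · intro s _
    refine integrable_finsetSum _ fun s' _ => ?_
    exact ((hf.comp (h.measurable _)).mul (hf.comp (h.measurable _))).integrable

end rel

end Pool.Agent.Y311.UB
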