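import Pool.Agent.W761.Box.Clos

/-!
# Box averages: asymptotic bounds, shifts and the van der Corput step
-/

set_option autoImplicit false

open Filter Topology MeasureTheory

noncomputable section

namespace Pool.Agent.Y311.UB

open Pool.Agent.W761.Box

/-- `c` is an asymptotic bound for `u`. -/
def AB {k : ℕ} (u : (Fin k → ℕ) → ℝ) (c : ℝ) : Prop :=
  ∀ ε : ℝ, 0 < ε → ∀ᶠ N in atTop, |u N| ≤ c + ε

theorem AB.mono {k : ℕ} {u : (Fin k → ℕ) → ℝ} {c d : ℝ} (h : AB u c) (hcd : c ≤ d) : AB u d := by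
  intro ε hε
  filter_upwards [h ε hε] with N hN
  linarith

theorem AB.of_tendsto {k : ℕ} {u : (Fin k → ℕ) → ℝ} {c : ℝ} (h : Tendsto u atTop (𝓝 c)) :
    AB u |c| := by
  intro ε hε
  have h1 := (tendsto_order.mp h.abs).2 (|c| + ε) (by linarith)
  filter_upwards [h1] with N hN
  exact hN.le

/-- a point of the box seen in `ℤ^k` -/
def cz {k : ℕ} (m : Fin k → ℕ) : Fin k → ℤ := fun i => (m i : ℤ)

/-- Box average of a function on `ℤ^k`. -/
def bz {k : ℕ} (N : Fin k → ℕ) (a : (Fin k → ℤ) → ℝ) : ℝ := bx k N fun m => a (cz m)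

theorem bx_unit_shift : ∀ (k : ℕ) (N : Fin k → ℕ) (i : Fin k) (a : (Fin k → ℕ) → ℝ) (C : ℝ)
    (_ : ∀ m, |a m| ≤ C) (_ : 0 < N i),
    |bx k N (fun m => a (m + Pi.single i 1)) - bx k N a| ≤ 2 * C / N i
  | 0, _, i, _, _, _, _ => i.elim0
  | k + 1, N, i, a, C, hC, hN => by
    have hC0 : 0 ≤ C := (abs_nonneg _).trans (hC 0)
    rw [bx_succ, bx_succ]
    refine Fin.cases (fun hN => ?_) (fun j hN => ?_) i hN
    · rw [← bx_sub]
      refine bx_bound (by positivity) fun m => ?_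
      rw [← mul_sub, ← Finset.sum_sub_distrib]
      have h1 : ∑ x ∈ Finset.range (N 0), (a ((Fin.cons x m : Fin (k + 1) → ℕ) + Pi.single 0 1) -
          a (Fin.cons x m)) = a (Fin.cons (N 0) m) - a (Fin.cons 0 m) := by
        have h2 := Finset.sum_range_sub (fun x => a (Fin.cons x m : Fin (k + 1) → ℕ)) (N 0)
        rw [← h2]
        refine Finset.sum_congr rfl fun x _ => ?_
        congr 2
        funext l
        refine Fin.cases ?_ (fun l => ?_) l
        · simp
        · simp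
      rw [h1, abs_mul, abs_inv, Nat.abs_cast, div_eq_inv_mul]
      refine mul_le_mul_of_nonneg_left ?_ (by positivity)
      refine (abs_sub _ _).trans ?_
      linarith [hC (Fin.cons (N 0) m), hC (Fin.cons 0 m)]
    · set b : (Fin k → ℕ) → ℝ := fun m =>
        (N 0 : ℝ)⁻¹ * ∑ x ∈ Finset.range (N 0), a (Fin.cons x m) with hb
      have hbC : ∀ m, |b m| ≤ C := by
        intro m
        rw [hb]
        simp only
        rw [abs_mul, abs_inv, Nat.abs_cast]
        rcases Nat.eq_zero_or_pos (N 0) with h0 | h0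
        · rw [h0]
          simpa using hC0
        · rw [inv_mul_le_iff₀ (by exact_mod_cast h0)]
          refine (Finset.abs_sum_le_sum_abs _ _).trans ?_
          refine (Finset.sum_le_sum fun i _ => hC _).trans ?_
          rw [Finset.sum_const, Finset.card_range, nsmul_eq_mul]
      have h2 : (fun m : Fin k → ℕ => (N 0 : ℝ)⁻¹ * ∑ x ∈ Finset.range (N 0),
          a ((Fin.cons x m : Fin (k + 1) → ℕ) + Pi.single j.succ 1)) =
          fun m => b (m + Pi.single j 1) := by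
        funext m
        rw [hb]
        simp only
        congr 1
        refine Finset.sum_congr rfl fun x _ => ?_
        congr 1
        funext l
        refine Fin.cases ?_ (fun l => ?_) l
        · simp
        · simp [Pi.single_apply]
      rw [h2]
      exact bx_unit_shift k (Fin.tail N) j b C hbC hN

theorem cz_add_single {k : ℕ} (m : Fin k → ℕ) (i : Fin k) :
    cz (m + Pi.single i 1) = cz m + Pi.single i 1 := by
  funext l
  rcases eq_or_ne l i with h | h
  · subst h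
    simp [cz]
  · simp [cz, h]

theorem tendsto_bz_unit {k : ℕ} {a : (Fin k → ℤ) → ℝ} {C : ℝ} (hC : ∀ m, |a m| ≤ C) (i : Fin k) :
    Tendsto (fun N : Fin k → ℕ => bz N (fun m => a (m + Pi.single i 1)) - bz N a) atTop (𝓝 0) := by
  have h1 : Tendsto (fun N : Fin k → ℕ => 2 * C / (N i : ℝ)) atTop (𝓝 0) := by
    refine Tendsto.div_atTop tendsto_const_nhds ?_
    refine tendsto_natCast_atTop_atTop.comp ?_
    exact tendsto_atTop_atTop.mpr fun b => ⟨fun _ => b, fun N hN => hN i⟩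
  refine squeeze_zero_norm' ?_ h1
  have h2 : ∀ᶠ N : Fin k → ℕ in atTop, (fun _ => 1) ≤ N := eventually_ge_atTop _
  filter_upwards [h2] with N hN
  rw [Real.norm_eq_abs]
  have h3 := bx_unit_shift k N i (fun m => a (cz m)) C (fun m => hC _) (hN i)
  simp only [cz_add_single] at h3
  exact h3

/-- Box averages are asymptotically invariant under `v`. -/
def ShInv {k : ℕ} (v : Fin k → ℤ) : Prop := ∀ (a : (Fin k → ℤ) → ℝ) (C : ℝ) (_ : ∀ m, |a m| ≤ C),
    Tendsto (fun N : Fin k → ℕ => bz N (fun m => a (m + v)) - bz N a) atTop (𝓝 0)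

theorem shInv_add {k : ℕ} (v w : Fin k → ℤ) (hv : ShInv v) (hw : ShInv w) : ShInv (v + w) := by
  intro a C hC
  have h1 := hv a C hC
  have h2 := hw (fun m => a (m + v)) C (fun m => hC _)
  have h3 := h1.add h2
  rw [add_zero] at h3
  refine h3.congr fun N => ?_
  have h4 : (fun m : Fin k → ℤ => a (m + w + v)) = fun m => a (m + (v + w)) := by
    funext m
    congr 1
    abel
  rw [h4]
  ring

theorem shInv_neg {k : ℕ} (v : Fin k → ℤ) (hv : ShInv v) : ShInv (-v) := by
  intro a C hC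
  have h1 := hv (fun m => a (m + -v)) C (fun m => hC _)
  have h2 := h1.neg
  rw [neg_zero] at h2
  refine h2.congr fun N => ?_
  have h4 : (fun m : Fin k → ℤ => a (m + v + -v)) = a := by
    funext m
    congr 1
    abel
  rw [h4]
  ring

theorem shInv_zero {k : ℕ} : ShInv (0 : Fin k → ℤ) := by
  intro a C hC
  simp

theorem shInv_single {k : ℕ} (z : ℤ) (i : Fin k) : ShInv (Pi.single i z : Fin k → ℤ) := by
  have hnat : ∀ n : ℕ, ShInv (Pi.single i (n : ℤ) : Fin k → ℤ) := by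
    intro n
    induction n with
    | zero =>
      rw [Nat.cast_zero, Pi.single_zero]
      exact shInv_zero
    | succ n ih =>
      have h1 := shInv_add _ _ ih (fun a C hC => tendsto_bz_unit hC i)
      rw [← Pi.single_add] at h1
      push_cast
      exact h1
  obtain ⟨n, rfl | rfl⟩ := z.eq_nat_or_neg
  · exact hnat n
  · have h1 := shInv_neg _ (hnat n)
    rw [← Pi.single_neg] at h1
    exact h1

/-- Box averages are asymptotically invariant. -/
theorem tendsto_bz_shift {k : ℕ} (v : Fin k → ℤ) {a : (Fin k → ℤ) → ℝ} {C : ℝ}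
    (hC : ∀ m, |a m| ≤ C) :
    Tendsto (fun N : Fin k → ℕ => bz N (fun m => a (m + v)) - bz N a) atTop (𝓝 0) := by
  have hall : ∀ s : Finset (Fin k), ShInv (∑ i ∈ s, Pi.single i (v i) : Fin k → ℤ) := by
    intro s
    induction s using Finset.induction_on with
    | empty =>
      rw [Finset.sum_empty]
      exact shInv_zero
    | insert i s hi ih =>
      rw [Finset.sum_insert hi]
      exact shInv_add _ _ (shInv_single _ _) ih
  have h5 := hall Finset.univ
  rw [Finset.univ_sum_single] at h5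
  exact h5 a C hC

theorem bz_add {k : ℕ} (N : Fin k → ℕ) (a b : (Fin k → ℤ) → ℝ) :
    bz N (fun m => a m + b m) = bz N a + bz N b := bx_add _ _ _ _

theorem bz_sub {k : ℕ} (N : Fin k → ℕ) (a b : (Fin k → ℤ) → ℝ) :
    bz N (fun m => a m - b m) = bz N a - bz N b := bx_sub _ _ _ _

theorem bz_mul {k : ℕ} (N : Fin k → ℕ) (c : ℝ) (a : (Fin k → ℤ) → ℝ) :
    bz N (fun m => c * a m) = c * bz N a := bx_mul _ _ _ _

theorem bz_sum {k : ℕ} (N : Fin k → ℕ) {ι : Type*} (s : Finset ι) (a : ι → (Fin k → ℤ) → ℝ) :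
    bz N (fun m => ∑ i ∈ s, a i m) = ∑ i ∈ s, bz N (a i) := bx_sum _ _ _ _

theorem bz_mono {k : ℕ} {N : Fin k → ℕ} {a b : (Fin k → ℤ) → ℝ} (h : ∀ m, a m ≤ b m) :
    bz N a ≤ bz N b := bx_mono fun _ => h _

theorem bz_abs {k : ℕ} {N : Fin k → ℕ} {a : (Fin k → ℤ) → ℝ} :
    |bz N a| ≤ bz N (fun m => |a m|) := bx_abs

theorem bz_const_le {k : ℕ} {N : Fin k → ℕ} {C : ℝ} (hC : 0 ≤ C) :
    bz N (fun _ => C) ≤ C := bx_const_le hC

theorem bz_nonneg {k : ℕ} {N : Fin k → ℕ} {a : (Fin k → ℤ) → ℝ} (h : ∀ m, 0 ≤ a m) :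
    0 ≤ bz N a := bx_nonneg fun _ => h _

/-- Jensen/Cauchy-Schwarz for box averages. -/
theorem bz_sq_le {k : ℕ} {N : Fin k → ℕ} {a : (Fin k → ℤ) → ℝ} :
    (bz N a) ^ 2 ≤ bz N (fun m => a m ^ 2) := by
  have h1 : 0 ≤ bz N (fun m => (a m - bz N a) ^ 2) := bz_nonneg fun m => sq_nonneg _
  have h2 : bz N (fun m => (a m - bz N a) ^ 2) = bz N (fun m => a m ^ 2) -
      2 * bz N a * bz N a + bz N (fun _ => (bz N a) ^ 2) := by
    have h3 : (fun m => (a m - bz N a) ^ 2) = fun m => (a m ^ 2 - 2 * bz N a * a m) +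
        (bz N a) ^ 2 := by
      funext m
      ring
    rw [h3, bz_add, bz_sub, bz_mul]
  have h4 := bz_const_le (N := N) (C := (bz N a) ^ 2) (sq_nonneg _)
  nlinarith

/-- The van der Corput step, common part. -/
theorem vdc_aux {k : ℕ} {a b : (Fin k → ℤ) → ℝ} {A : ℝ} (ha : ∀ m, |a m| ≤ A)
    (hb : ∀ m, |b m| ≤ 1) {v : Fin k → ℤ} (hv : ∀ m, b (m + v) = b m) {S : ℕ} (hS : 0 < S)
    {c : ℝ} (hc : AB (fun N => bz N fun m => ((S : ℝ)⁻¹ * ∑ s ∈ Finset.range S,
      a (m + s • v)) ^ 2) c) :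
    AB (fun N => bz N fun m => a m * b m) (Real.sqrt c) := by
  have hA : 0 ≤ A := (abs_nonneg _).trans (ha 0)
  have hS' : (0 : ℝ) < S := by exact_mod_cast hS
  have hbs : ∀ (s : ℕ) m, b (m + s • v) = b m := by
    intro s
    induction s with
    | zero => intro m; simp
    | succ s ih =>
      intro m
      rw [succ_nsmul, ← add_assoc, hv, ih]
  have hab : ∀ m, |a m * b m| ≤ A := by
    intro m
    rw [abs_mul]
    calc |a m| * |b m| ≤ A * 1 := mul_le_mul (ha m) (hb m) (abs_nonneg _) hA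
      _ = A := mul_one _
  -- the shifted average
  have h1 : Tendsto (fun N : Fin k → ℕ => bz N (fun m => ((S : ℝ)⁻¹ * ∑ s ∈ Finset.range S,
      a (m + s • v)) * b m) - bz N (fun m => a m * b m)) atTop (𝓝 0) := by
    have h2 : Tendsto (fun N : Fin k → ℕ => (S : ℝ)⁻¹ * ∑ s ∈ Finset.range S,
        (bz N (fun m => a (m + s • v) * b (m + s • v)) - bz N (fun m => a m * b m)))
        atTop (𝓝 ((S : ℝ)⁻¹ * ∑ s ∈ Finset.range S, 0)) := by
      refine Tendsto.const_mul _ (tendsto_finsetSum _ fun s _ => ?_)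
      exact tendsto_bz_shift (s • v) (a := fun m => a m * b m) hab
    rw [Finset.sum_const_zero, mul_zero] at h2
    refine h2.congr fun N => ?_
    rw [Finset.sum_sub_distrib, Finset.sum_const, Finset.card_range, nsmul_eq_mul, mul_sub,
      ← mul_assoc, inv_mul_cancel₀ hS'.ne', one_mul, ← bz_sum, ← bz_mul]
    congr 2
    funext m
    rw [mul_assoc, Finset.sum_mul]
    simp only [hbs]
  intro ε hε
  have hc0 : 0 ≤ c := by
    by_contra hcon
    rw [not_le] at hcon
    obtain ⟨N, hN⟩ := (hc (-c / 2) (by linarith)).exists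
    have := (abs_nonneg _).trans hN
    linarith
  have hδ : 0 < ε ^ 2 / 4 := by positivity
  have h3 := hc (ε ^ 2 / 4) hδ
  have h4 : ∀ᶠ N : Fin k → ℕ in atTop, |bz N (fun m => ((S : ℝ)⁻¹ * ∑ s ∈ Finset.range S,
      a (m + s • v)) * b m) - bz N (fun m => a m * b m)| < ε / 2 := by
    have := (Metric.tendsto_nhds.mp h1) (ε / 2) (by positivity)
    simpa [Real.dist_eq] using this
  filter_upwards [h3, h4] with N hN3 hN4
  have h5 : |bz N (fun m => ((S : ℝ)⁻¹ * ∑ s ∈ Finset.range S, a (m + s • v)) * b m)| ≤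
      Real.sqrt c + ε / 2 := by
    have h6 : (bz N (fun m => ((S : ℝ)⁻¹ * ∑ s ∈ Finset.range S, a (m + s • v)) * b m)) ^ 2 ≤
        c + ε ^ 2 / 4 := by
      refine bz_sq_le.trans ?_
      have h7 : bz N (fun m => (((S : ℝ)⁻¹ * ∑ s ∈ Finset.range S, a (m + s • v)) * b m) ^ 2) ≤
          bz N (fun m => ((S : ℝ)⁻¹ * ∑ s ∈ Finset.range S, a (m + s • v)) ^ 2) := by
        refine bz_mono fun m => ?_
        rw [mul_pow]
        have h8 : b m ^ 2 ≤ 1 := by
          rw [← sq_abs]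
          exact pow_le_one₀ (abs_nonneg _) (hb m)
        nlinarith [sq_nonneg ((S : ℝ)⁻¹ * ∑ s ∈ Finset.range S, a (m + s • v))]
      exact h7.trans ((le_abs_self _).trans hN3)
    rw [← Real.sqrt_sq_eq_abs]
    have h9 : Real.sqrt c + ε / 2 = Real.sqrt ((Real.sqrt c + ε / 2) ^ 2) := by
      rw [Real.sqrt_sq (by positivity)]
    rw [h9]
    apply Real.sqrt_le_sqrt
    refine h6.trans ?_
    have := Real.sq_sqrt hc0
    nlinarith [Real.sqrt_nonneg c, mul_nonneg (Real.sqrt_nonneg c) hε.le]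
  have h10 := abs_sub_abs_le_abs_sub (bz N (fun m => a m * b m))
    (bz N (fun m => ((S : ℝ)⁻¹ * ∑ s ∈ Finset.range S, a (m + s • v)) * b m))
  rw [abs_sub_comm] at h10
  linarith

/-- The van der Corput step. -/
theorem vdc {k : ℕ} {a b : (Fin k → ℤ) → ℝ} {A : ℝ} (ha : ∀ m, |a m| ≤ A)
    (hb : ∀ m, |b m| ≤ 1) {v : Fin k → ℤ} (hv : ∀ m, b (m + v) = b m) {S : ℕ} (hS : 0 < S)
    {c : ℕ → ℕ → ℝ} (hc : ∀ s < S, ∀ s' < S,
      AB (fun N => bz N fun m => a (m + s • v) * a (m + s' • v)) (c s s')) :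
    AB (fun N => bz N fun m => a m * b m)
      (Real.sqrt ((S : ℝ)⁻¹ ^ 2 * ∑ s ∈ Finset.range S, ∑ s' ∈ Finset.range S, c s s')) := by
  have hS' : (0 : ℝ) < S := by exact_mod_cast hS
  refine vdc_aux ha hb hv hS fun ε hε => ?_
  have h1 : ∀ᶠ N : Fin k → ℕ in atTop, ∀ s ∈ Finset.range S, ∀ s' ∈ Finset.range S,
      |bz N fun m => a (m + s • v) * a (m + s' • v)| ≤ c s s' + ε := by
    rw [Filter.eventually_all_finset]
    intro s hs
    rw [Filter.eventually_all_finset]
    intro s' hs'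
    exact hc s (Finset.mem_range.mp hs) s' (Finset.mem_range.mp hs') ε hε
  filter_upwards [h1] with N hN
  have h2 : (bz N fun m => ((S : ℝ)⁻¹ * ∑ s ∈ Finset.range S, a (m + s • v)) ^ 2) =
      (S : ℝ)⁻¹ ^ 2 * ∑ s ∈ Finset.range S, ∑ s' ∈ Finset.range S,
        bz N fun m => a (m + s • v) * a (m + s' • v) := by
    have h3 : (fun m => ((S : ℝ)⁻¹ * ∑ s ∈ Finset.range S, a (m + s • v)) ^ 2) = fun m =>
        (S : ℝ)⁻¹ ^ 2 * ∑ s ∈ Finset.range S, ∑ s' ∈ Finset.range S,
          a (m + s • v) * a (m + s' • v) := by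
      funext m
      rw [mul_pow, sq (∑ s ∈ Finset.range S, a (m + s • v)), Finset.sum_mul_sum]
    rw [h3, bz_mul, bz_sum]
    congr 1
    refine Finset.sum_congr rfl fun s _ => ?_
    rw [bz_sum]
  rw [h2, abs_mul, abs_of_nonneg (by positivity : (0 : ℝ) ≤ (S : ℝ)⁻¹ ^ 2)]
  have h4 : |∑ s ∈ Finset.range S, ∑ s' ∈ Finset.range S,
      bz N fun m => a (m + s • v) * a (m + s' • v)| ≤
      ∑ s ∈ Finset.range S, ∑ s' ∈ Finset.range S, (c s s' + ε) := by
    refine (Finset.abs_sum_le_sum_abs _ _).trans (Finset.sum_le_sum fun s hs => ?_)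
    refine (Finset.abs_sum_le_sum_abs _ _).trans (Finset.sum_le_sum fun s' hs' => ?_)
    exact hN s hs s' hs'
  have h5 : (S : ℝ)⁻¹ ^ 2 * ∑ s ∈ Finset.range S, ∑ s' ∈ Finset.range S, (c s s' + ε) =
      (S : ℝ)⁻¹ ^ 2 * ∑ s ∈ Finset.range S, ∑ s' ∈ Finset.range S, c s s' + ε := by
    simp only [Finset.sum_add_distrib, Finset.sum_const, Finset.card_range, nsmul_eq_mul]
    field_simp
  rw [← h5]
  exact mul_le_mul_of_nonneg_left h4 (by positivity)

end Pool.Agent.Y311.UB
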