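import Pool.Agent.Y311.UB.Struct

/-!
# The elimination lemma
-/

set_option autoImplicit false
set_option linter.unusedSectionVars false

open Filter Topology MeasureTheory ProbabilityTheory

noncomputable section

namespace Pool.Agent.Y311.UB

open Pool.Agent.W761.Box

variable {k : ℕ} {J : Type} [Fintype J] [DecidableEq J] {ι : Type} {G : Type} [AddCommGroup G]

theorem list_prod_eq_finset {ι : Type} [DecidableEq ι] (l : List ι) (hnd : l.Nodup) (f : ι → ℝ) :
    (l.map f).prod = ∏ i ∈ l.toFinset, f i := by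
  rw [List.prod_toFinset _ hnd]

/-- Elimination of one function. -/
theorem elim (L : J → (Fin k → ℤ) →+ G) {E : Finset J} {j0 : J} (hj0 : j0 ∈ E)
    (w : ι → G) (lam : ι → G →+ ℤ) (v : ι → Fin k → ℤ)
    (l : List ι) (hne : l ≠ []) (hnd : l.Nodup) (h1 : ∀ i ∈ l, lam i (w i) = 1)
    (h2 : ∀ i ∈ l, ∀ j ∈ l, i ≠ j → lam i (w j) = 0) (hL : ∀ i ∈ l, L j0 (v i) = w i)
    (hkill : ∀ j ∈ E, j ≠ j0 → ∃ i ∈ l, L j (v i) = 0)
    (hmerge : ∀ i ∈ l, ∃ j ∈ E, j ≠ j0 ∧ ∃ c : (Fin k → ℤ) → ℤ,
      ∀ m, L j0 m = L j m + c m • w i) (ih : Conv L (E.erase j0)) : Conv L E := by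
  classical
  intro X _ _ μ _ Φ h F hF hF1
  choose hFm C hC using hF
  set c : J → ℝ := fun j => |C j| + 1 with hc
  have hc0 : ∀ j, 0 < c j := fun j => by positivity
  have hCc : ∀ j x, |F j x| ≤ c j := fun j x =>
    ((hC j x).trans (le_abs_self _)).trans (by simp [hc])
  have hFc : ∀ j x, |F j x / c j| ≤ 1 := fun j x => by
    rw [abs_div, abs_of_pos (hc0 j), div_le_one (hc0 j)]
    exact hCc j x
  have : Nonempty ι := ⟨l.head hne⟩
  choose! ii hil hik using hkill
  set B : ℝ := ∏ j ∈ E.erase j0, c j with hB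
  have hB0 : 0 < B := Finset.prod_pos fun j _ => hc0 j
  set f0 : X → ℝ := fun x => F j0 x / c j0 with hf0
  have hf0m : Measurable f0 := (hFm j0).div_const _
  set A : (Fin k → ℕ) → X → ℝ := fun N x => bz N fun m => ∏ j, F j (Φ (L j m) x) with hA
  have hAm : ∀ N, Measurable (A N) := by
    intro N
    rw [hA]
    unfold bz bx
    refine (Finset.measurable_fun_sum _ fun m _ => ?_).const_mul _
    exact Finset.measurable_fun_prod _ fun j _ => (hFm j).comp (h.measurable _)
  have hbad : ∀ δ : ℝ, 0 < δ → ∀ᵐ x ∂μ, ∃ N₀, ∀ N, N₀ ≤ N → ∀ M, N₀ ≤ M →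
      |A N x - A M x| ≤ δ := by
    intro δ hδ
    set Bad : Set X := {x | ¬ ∃ N₀, ∀ N, N₀ ≤ N → ∀ M, N₀ ≤ M → |A N x - A M x| ≤ δ} with hBad
    have hBadm : MeasurableSet Bad := by
      have : Bad = (⋃ N₀ : Fin k → ℕ, ⋂ N : Fin k → ℕ, ⋂ _ : N₀ ≤ N, ⋂ M : Fin k → ℕ,
          ⋂ _ : N₀ ≤ M, {x | |A N x - A M x| ≤ δ})ᶜ := by
        ext x
        simp [hBad]
      rw [this]
      refine MeasurableSet.compl (MeasurableSet.iUnion fun N₀ => MeasurableSet.iInter fun N =>
        MeasurableSet.iInter fun _ => MeasurableSet.iInter fun M => MeasurableSet.iInter fun _ => ?_)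
      exact measurableSet_le ((hAm N).sub (hAm M)).abs measurable_const
    rw [ae_iff, ← nonpos_iff_eq_zero]
    apply ENNReal.le_of_forall_pos_le_add
    intro η hη _
    rw [zero_add]
    have hη' : (0 : ℝ) < η := by exact_mod_cast hη
    set D : ℝ := 2 * c j0 * B with hD
    have hD0 : 0 < D := by have := hc0 j0; positivity
    set r : ℝ := δ / (8 * D) with hr
    have hr0 : 0 < r := by positivity
    set p : ℕ := 2 ^ l.length with hp
    obtain ⟨E', g, R, hgW, hg1, hRm, hR01, hRctl, hRint⟩ := good_ext w lam (L j0) v l hne hnd h1 h2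
      hL h (f := f0) hf0m (fun x => hFc j0 x) (δ := η * r ^ p) (by positivity)
    set F' : J → E'.Y → ℝ := fun j y => F j (E'.π y) with hF'
    have hF'B : ∀ j, BMr (F' j) := fun j => ⟨(hFm j).comp E'.mp.measurable, C j, fun y => hC j _⟩
    have hF'1 : ∀ j, j ∉ E → F' j = fun _ => 1 := by
      intro j hj
      funext y
      rw [hF']
      simp only
      rw [hF1 j hj]
    have hgc := conv_struct L w l hmerge ih E'.act hF'B hF'1 hgW hg1
    -- the algebraic decomposition
    have hdec : ∀ (N : Fin k → ℕ) (y : E'.Y), A N (E'.π y) =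
        D * bz N (fun m => (f0 (E'.π (E'.Ψ (L j0 m) y)) - g (E'.Ψ (L j0 m) y)) / 2 *
          (l.map fun i => ∏ j ∈ E.erase j0, if ii j = i then F' j (E'.Ψ (L j m) y) / c j
            else 1).prod) +
        c j0 * bz N (fun m => ∏ j, (Function.update F' j0 g) j (E'.Ψ (L j m) y)) := by
      intro N y
      rw [← bz_mul, ← bz_mul, ← bz_add]
      rw [hA]
      simp only
      congr 1
      funext m
      have e1 := prod_updateR (fun j m => (E'.Ψ (L j m) : E'.Y → E'.Y)) F' j0 g m y
      rw [e1, list_prod_eq_finset l hnd, Finset.prod_comm]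
      have e2 : ∏ j ∈ E.erase j0, ∏ i ∈ l.toFinset, (if ii j = i then F' j (E'.Ψ (L j m) y) / c j
          else 1) = ∏ j ∈ E.erase j0, F' j (E'.Ψ (L j m) y) / c j := by
        refine Finset.prod_congr rfl fun j hj => ?_
        rw [Finset.prod_ite_eq, if_pos]
        rw [List.mem_toFinset]
        exact hil j (Finset.mem_of_mem_erase hj) (Finset.ne_of_mem_erase hj)
      rw [e2, Finset.prod_div_distrib, ← hB]
      have e3 : ∏ j ∈ Finset.univ.erase j0, F' j (E'.Ψ (L j m) y) =
          ∏ j ∈ E.erase j0, F' j (E'.Ψ (L j m) y) := by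
        symm
        refine Finset.prod_subset (Finset.erase_subset_erase _ (Finset.subset_univ _)) ?_
        intro j hj1 hj2
        have : j ∉ E := fun h => hj2 (Finset.mem_erase.mpr ⟨Finset.ne_of_mem_erase hj1, h⟩)
        rw [hF'1 j this]
      have e4 : ∏ j, F j (Φ (L j m) (E'.π y)) = F' j0 (E'.Ψ (L j0 m) y) *
          ∏ j ∈ E.erase j0, F' j (E'.Ψ (L j m) y) := by
        rw [← e3, Finset.mul_prod_erase _ (fun j => F' j (E'.Ψ (L j m) y)) (Finset.mem_univ j0)]
        refine Finset.prod_congr rfl fun j _ => ?_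
        rw [hF']
        simp only
        rw [E'.eqv]
      rw [e4, e3]
      set Pm : ℝ := ∏ j ∈ E.erase j0, F' j (E'.Ψ (L j m) y)
      have e5 : f0 (E'.π (E'.Ψ (L j0 m) y)) = F' j0 (E'.Ψ (L j0 m) y) / c j0 := rfl
      rw [e5, hD]
      have := (hc0 j0).ne'
      have := hB0.ne'
      field_simp
      ring
    have hmain : ∀ᵐ y ∂E'.ν, R y < r → E'.π y ∉ Bad := by
      filter_upwards [hgc, hRctl] with y hy1 hy2 hy3
      rw [hBad, Set.mem_ofPred_eq, not_not]
      obtain ⟨γ, hγ⟩ := hy1
      have h3 := hy2 (fun i m => ∏ j ∈ E.erase j0, if ii j = i then F' j (E'.Ψ (L j m) y) / c j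
            else 1) (fun i m => by
              rw [Finset.abs_prod]
              refine Finset.prod_le_one (fun a _ => abs_nonneg _) fun a _ => ?_
              split_ifs
              · exact hFc a _
              · simp) (fun i hi m => by
              refine Finset.prod_congr rfl fun j hj => ?_
              split_ifs with hij
              · have h4 : L j (m + v i) = L j m := by
                  rw [map_add, ← hij, hik j (Finset.mem_of_mem_erase hj)
                    (Finset.ne_of_mem_erase hj), add_zero]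
                rw [h4]
              · rfl)
      have h5 := h3 (r - R y) (by linarith)
      have h6 : ∀ᶠ N : Fin k → ℕ in atTop, dist (bz N (fun m => ∏ j,
          (Function.update F' j0 g) j (E'.Ψ (L j m) y))) γ < δ / (4 * c j0) :=
        Metric.tendsto_nhds.mp hγ _ (by have := hc0 j0; positivity)
      obtain ⟨N₀, hN₀⟩ := eventually_atTop.mp (h5.and h6)
      refine ⟨N₀, ?_⟩
      have hcl : ∀ N, N₀ ≤ N → |A N (E'.π y) - c j0 * γ| ≤ δ / 2 := by
        intro N hN
        obtain ⟨a1, a2⟩ := hN₀ N hN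
        rw [hdec]
        rw [Real.dist_eq] at a2
        set U := bz N (fun m => (f0 (E'.π (E'.Ψ (L j0 m) y)) - g (E'.Ψ (L j0 m) y)) / 2 *
          (l.map fun i => ∏ j ∈ E.erase j0, if ii j = i then F' j (E'.Ψ (L j m) y) / c j
            else 1).prod)
        set V := bz N (fun m => ∏ j, (Function.update F' j0 g) j (E'.Ψ (L j m) y))
        have e1 : D * U + c j0 * V - c j0 * γ = D * U + c j0 * (V - γ) := by ring
        rw [e1]
        refine (abs_add_le _ _).trans ?_
        rw [abs_mul D U, abs_mul (c j0) (V - γ), abs_of_pos hD0, abs_of_pos (hc0 j0)]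
        have e2 : D * |U| ≤ δ / 8 := by
          calc D * |U| ≤ D * r := mul_le_mul_of_nonneg_left (by linarith) hD0.le
            _ = δ / 8 := by rw [hr]; field_simp
        have e3 : c j0 * |V - γ| ≤ δ / 4 := by
          calc c j0 * |V - γ| ≤ c j0 * (δ / (4 * c j0)) :=
                mul_le_mul_of_nonneg_left a2.le (hc0 j0).le
            _ = δ / 4 := by have := (hc0 j0).ne'; field_simp
        linarith
      intro N hN M hM
      have b1 := hcl N hN
      have b2 := hcl M hM
      have e1 : A N (E'.π y) - A M (E'.π y) = (A N (E'.π y) - c j0 * γ) -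
          (A M (E'.π y) - c j0 * γ) := by ring
      rw [e1]
      refine (abs_sub _ _).trans ?_
      linarith
    have hpre : μ Bad = E'.ν (E'.π ⁻¹' Bad) :=
      (E'.mp.measure_preimage hBadm.nullMeasurableSet).symm
    have hBadeq : μ {a | ¬ ∃ N₀, ∀ N, N₀ ≤ N → ∀ M, N₀ ≤ M → |A N a - A M a| ≤ δ} = μ Bad := rfl
    rw [hBadeq, hpre]
    have hle : E'.ν (E'.π ⁻¹' Bad) ≤ E'.ν {y | r ^ p ≤ R y ^ p} := by
      refine measure_mono_ae ?_
      filter_upwards [hmain] with y hy hyB
      show r ^ p ≤ R y ^ p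
      by_contra hcon
      have h7 : R y < r := by
        by_contra h8
        rw [not_lt] at h8
        exact hcon (pow_le_pow_left₀ hr0.le h8 p)
      exact hy h7 hyB
    refine hle.trans ?_
    have hRpi : Integrable (fun y => R y ^ p) E'.ν := by
      refine Integrable.of_bound (hRm.pow_const _).aestronglyMeasurable 1
        (Eventually.of_forall fun y => ?_)
      rw [Real.norm_eq_abs, abs_of_nonneg (pow_nonneg (hR01 y).1 _)]
      exact pow_le_one₀ (hR01 y).1 (hR01 y).2
    have hmark := mul_meas_ge_le_integral_of_nonneg (μ := E'.ν) (f := fun y => R y ^ p)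
      (Eventually.of_forall fun y => pow_nonneg (hR01 y).1 _) hRpi (r ^ p)
    have hmark' : E'.ν.real {y | r ^ p ≤ R y ^ p} ≤ η := by
      have h3 : r ^ p * E'.ν.real {y | r ^ p ≤ R y ^ p} ≤ r ^ p * η := by
        refine hmark.trans (hRint.trans ?_)
        rw [mul_comm]
      exact le_of_mul_le_mul_left h3 (by positivity)
    have h20 : E'.ν {y | r ^ p ≤ R y ^ p} = ENNReal.ofReal (E'.ν.real {y | r ^ p ≤ R y ^ p}) := by
      rw [measureReal_def, ENNReal.ofReal_toReal (measure_ne_top _ _)]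
    rw [h20]
    calc ENNReal.ofReal (E'.ν.real {y | r ^ p ≤ R y ^ p}) ≤ ENNReal.ofReal (η : ℝ) :=
          ENNReal.ofReal_le_ofReal hmark'
      _ = η := ENNReal.ofReal_coe_nnreal
  have hall := ae_all_iff.mpr fun i : ℕ => hbad (1 / ((i : ℝ) + 1)) (by positivity)
  filter_upwards [hall] with x hx
  apply cauchySeq_tendsto_of_complete
  rw [Metric.cauchySeq_iff']
  intro ε hε
  obtain ⟨i, hi⟩ := exists_nat_one_div_lt hε
  obtain ⟨N₀, hN₀⟩ := hx i
  refine ⟨N₀, fun n hn => ?_⟩
  rw [Real.dist_eq]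
  exact (hN₀ n hn N₀ le_rfl).trans_lt hi

/-- The empty family. -/
theorem conv_empty (L : J → (Fin k → ℤ) →+ G) : Conv L (∅ : Finset J) := by
  intro X _ _ μ _ Φ h F hF hF1
  have h1 := h.conv (0 : (Fin k → ℤ) →+ G) (F := fun _ : X => (1 : ℝ)) BMr.one
  filter_upwards [h1] with x hx
  obtain ⟨c, hc⟩ := hx
  refine ⟨c, hc.congr fun N => ?_⟩
  congr 1
  funext m
  rw [Finset.prod_eq_one]
  intro j _
  rw [hF1 j (Finset.notMem_empty j)]

/-- One function. -/
theorem conv_single (L : J → (Fin k → ℤ) →+ G) (j0 : J) : Conv L ({j0} : Finset J) := by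
  intro X _ _ μ _ Φ h F hF hF1
  have h1 := h.conv (L j0) (hF j0)
  filter_upwards [h1] with x hx
  obtain ⟨c, hc⟩ := hx
  refine ⟨c, hc.congr fun N => ?_⟩
  congr 1
  funext m
  rw [← Finset.mul_prod_erase _ _ (Finset.mem_univ j0), Finset.prod_eq_one, mul_one]
  intro j hj
  rw [hF1 j]
  simpa using Finset.ne_of_mem_erase hj

end Pool.Agent.Y311.UB
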