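import Pool.Agent.Y311.UB.Ext

/-!
# The energy increment: an extension on which a function is structured plus uniform
-/

set_option autoImplicit false

open Filter Topology MeasureTheory ProbabilityTheory

noncomputable section

namespace Pool.Agent.Y311.UB

open Pool.Agent.W761.Box

variable {ι : Type} {G : Type} [AddCommGroup G] {k : ℕ}

/-- the σ-algebra generated by the sets invariant under some `w i`, `i ∈ l` -/
@[reducible] def Wsig {X : Type} [MeasurableSpace X] (Φ : G → Equiv.Perm X) (w : ι → G) (l : List ι) :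
    MeasurableSpace X := ⨆ i ∈ l, inv Φ (w i)

theorem Wsig_le {X : Type} [mX : MeasurableSpace X] (Φ : G → Equiv.Perm X) (w : ι → G)
    (l : List ι) : Wsig Φ w l ≤ mX := iSup₂_le fun i _ => inv_le Φ (w i)

theorem inv_le_Wsig {X : Type} [MeasurableSpace X] (Φ : G → Equiv.Perm X) (w : ι → G)
    {l : List ι} {i : ι} (hi : i ∈ l) : inv Φ (w i) ≤ Wsig Φ w l :=
  le_iSup₂ (f := fun i (_ : i ∈ l) => inv Φ (w i)) i hi

theorem measurable_inv_of {X : Type} [MeasurableSpace X] {Φ : G → Equiv.Perm X} {w : G}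
    {u : X → ℝ} (hu : Measurable u) (hinv : ∀ x, u (Φ w x) = u x) : Measurable[inv Φ w] u := by
  intro s hs
  rw [MeasurableSpace.measurableSet_invariants]
  refine ⟨hu hs, ?_⟩
  ext x
  simp [hinv]

/-- An extension of the system `(X, μ, Φ)`. -/
structure ExtOf {X : Type} [MeasurableSpace X] (μ : Measure X) (Φ : G → Equiv.Perm X) where
  Y : Type
  mY : MeasurableSpace Y
  sY : StandardBorelSpace Y
  ν : Measure Y
  pν : IsProbabilityMeasure ν
  Ψ : G → Equiv.Perm Y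
  π : Y → X
  act : Act ν Ψ
  mp : MeasurePreserving π ν μ
  eqv : ∀ g y, π (Ψ g y) = Φ g (π y)

attribute [instance] ExtOf.mY ExtOf.sY ExtOf.pν

/-- the trivial extension -/
def ExtOf.refl {X : Type} [mX : MeasurableSpace X] [sX : StandardBorelSpace X] {μ : Measure X}
    [pμ : IsProbabilityMeasure μ] {Φ : G → Equiv.Perm X} (h : Act μ Φ) : ExtOf μ Φ :=
  ⟨X, mX, sX, μ, pμ, Φ, id, h, MeasurePreserving.id μ, fun _ _ => rfl⟩

/-- the energy of `f` on an extension -/
def ExtOf.en {X : Type} [MeasurableSpace X] {μ : Measure X} {Φ : G → Equiv.Perm X}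
    (E : ExtOf μ Φ) (w : ι → G) (l : List ι) (f : X → ℝ) : ℝ :=
  ∫ y, (E.ν[fun y => f (E.π y) | Wsig E.Ψ w l]) y ^ 2 ∂E.ν

theorem bounded_version {X : Type} {m : MeasurableSpace X} [mX : MeasurableSpace X]
    {μ : Measure X} [IsProbabilityMeasure μ] {f : X → ℝ}
    (hf1 : ∀ x, |f x| ≤ 1) :
    ∃ g : X → ℝ, Measurable[m] g ∧ (∀ x, |g x| ≤ 1) ∧ g =ᵐ[μ] μ[f | m] := by
  refine ⟨fun x => max (-1) (min 1 ((μ[f | m]) x)), ?_, ?_, ?_⟩
  · exact Measurable.max measurable_const (Measurable.min measurable_const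
      stronglyMeasurable_condExp.measurable)
  · intro x
    rw [abs_le]
    exact ⟨le_max_left _ _, max_le (by norm_num) (min_le_left _ _)⟩
  · have hbd : ∀ᵐ x ∂μ, |(μ[f | m]) x| ≤ 1 := by
      exact ae_bdd_abs_condExp_of_ae_bdd_abs (m := m) (μ := μ)
        (f := f) (R := 1) (Filter.Eventually.of_forall hf1)
    filter_upwards [hbd] with x hx
    rw [abs_le] at hx
    rw [min_eq_right hx.2, max_eq_right hx.1]

theorem ExtOf.en_le {X : Type} [MeasurableSpace X] {μ : Measure X} {Φ : G → Equiv.Perm X}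
    (E : ExtOf μ Φ) (w : ι → G) (l : List ι) {f : X → ℝ} (hf1 : ∀ x, |f x| ≤ 1) :
    E.en w l f ≤ 1 := by
  obtain ⟨g, hgm, hg1, hgc⟩ := bounded_version (μ := E.ν) (m := Wsig E.Ψ w l)
    (f := fun y => f (E.π y)) (fun y => hf1 _)
  unfold ExtOf.en
  have h1 : ∫ y, (E.ν[fun y => f (E.π y) | Wsig E.Ψ w l]) y ^ 2 ∂E.ν = ∫ y, g y ^ 2 ∂E.ν := by
    refine integral_congr_ae ?_
    filter_upwards [hgc] with y hy
    rw [hy]
  rw [h1]
  have h2 : ∫ y, g y ^ 2 ∂E.ν ≤ ∫ _ : E.Y, (1 : ℝ) ∂E.ν := by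
    refine integral_mono ?_ (integrable_const _) fun y => ?_
    · refine Integrable.of_bound ((hgm.mono (Wsig_le _ _ _) le_rfl).pow_const 2).aestronglyMeasurable
        1 (Eventually.of_forall fun y => ?_)
      rw [Real.norm_eq_abs, abs_pow]
      exact pow_le_one₀ (abs_nonneg _) (hg1 y)
    · show g y ^ 2 ≤ 1
      rw [← sq_abs]
      exact pow_le_one₀ (abs_nonneg _) (hg1 y)
  simpa using h2

/-- Main lemma: on a suitable extension, `f` minus its conditional expectation on the structured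
`σ`-algebra is uniform. -/
theorem good_ext (w : ι → G) (lam : ι → G →+ ℤ) (L : (Fin k → ℤ) →+ G) (v : ι → Fin k → ℤ)
    (l : List ι) (hne : l ≠ []) (hnd : l.Nodup) (h1 : ∀ i ∈ l, lam i (w i) = 1)
    (h2 : ∀ i ∈ l, ∀ j ∈ l, i ≠ j → lam i (w j) = 0) (hL : ∀ i ∈ l, L (v i) = w i)
    {X : Type} [MeasurableSpace X] [StandardBorelSpace X] {μ : Measure X}
    [IsProbabilityMeasure μ] {Φ : G → Equiv.Perm X} (h : Act μ Φ) {f : X → ℝ}
    (hf : Measurable f) (hf1 : ∀ x, |f x| ≤ 1) {δ : ℝ} (hδ : 0 < δ) :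
    ∃ (E : ExtOf μ Φ) (g R : E.Y → ℝ), Measurable[Wsig E.Ψ w l] g ∧ (∀ y, |g y| ≤ 1) ∧
      Measurable R ∧ (∀ y, 0 ≤ R y ∧ R y ≤ 1) ∧
      Ctl E.ν E.Ψ L v l (fun y => (f (E.π y) - g y) / 2) R ∧
      ∫ y, R y ^ (2 ^ l.length) ∂E.ν ≤ δ := by
  set 𝒮 : Set ℝ := {r | ∃ E : ExtOf μ Φ, E.en w l f = r} with h𝒮
  have hbdd : BddAbove 𝒮 := ⟨1, by
    rintro _ ⟨E, rfl⟩
    exact E.en_le w l hf1⟩
  have hne' : 𝒮.Nonempty := ⟨_, ExtOf.refl h, rfl⟩
  have hη : (0 : ℝ) < δ ^ 2 := by positivity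
  obtain ⟨_, ⟨E, rfl⟩, hE⟩ := exists_lt_of_lt_csSup hne' (sub_lt_self (sSup 𝒮) hη)
  obtain ⟨g, hgm, hg1, hgc⟩ := bounded_version (μ := E.ν) (m := Wsig E.Ψ w l)
    (f := fun y => f (E.π y)) (fun y => hf1 _)
  have hgm' : Measurable g := hgm.mono (Wsig_le _ _ _) le_rfl
  obtain ⟨Y, mY, sY, ν, pν, Ψ, K, fK, π, hΨ, hπ0, heq, hπm, hπinv, hπeq, hctl⟩ :=
    hasExt w lam L v E.act l hne hnd h1 h2 hL
  set F : E.Y → ℝ := fun y => (f (E.π y) - g y) / 2 with hF
  have hFm : Measurable F := ((hf.comp E.mp.measurable).sub hgm').div_const 2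
  have hF1 : ∀ y, |F y| ≤ 1 := by
    intro y
    rw [hF]
    simp only
    rw [abs_div, abs_two]
    have := abs_sub (f (E.π y)) (g y)
    linarith [hf1 (E.π y), hg1 y]
  obtain ⟨R, hRm, hR01, hRctl, hRint⟩ := hctl F hFm hF1 (δ / 2) (by linarith)
  refine ⟨E, g, R, hgm, hg1, hRm, hR01, hRctl, hRint.trans ?_⟩
  suffices hc : ∫ y, ∏ η, F (π η y) ∂ν ≤ δ / 2 by linarith
  -- the big extension
  set E' : ExtOf μ Φ := ⟨Y, mY, sY, ν, pν, Ψ, fun y => E.π (π none y), hΨ, E.mp.comp hπ0,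
    fun g y => by rw [heq, E.eqv]⟩ with hE'
  have hen : E'.en w l f ≤ sSup 𝒮 := le_csSup hbdd ⟨E', rfl⟩
  have hWle : Wsig Ψ w l ≤ mY := Wsig_le _ _ _
  set u : Y → ℝ := fun y => ∏ η : K, F (π (some η) y) with hu
  have hu1 : ∀ y, |u y| ≤ 1 := fun y => abs_prod_le_one _ fun η => hF1 _
  have huW : Measurable[Wsig Ψ w l] u := by
    refine Finset.measurable_fun_prod _ fun η _ => ?_
    obtain ⟨i, hi, hinv⟩ := hπinv η
    refine Measurable.mono (measurable_inv_of (w := w i) (Φ := Ψ)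
      (u := fun y => F (π (some η) y)) (hFm.comp (hπm _)) fun y => by rw [hinv])
      (inv_le_Wsig Ψ w hi) le_rfl
  set Gg : Y → ℝ := fun y => g (π none y) with hGg
  have hGW : Measurable[Wsig Ψ w l] Gg := by
    have h5 : Wsig E.Ψ w l ≤ MeasurableSpace.map (π none) (Wsig Ψ w l) := by
      refine iSup₂_le fun i hi => ?_
      intro s hs
      show MeasurableSet[Wsig Ψ w l] (π none ⁻¹' s)
      refine inv_le_Wsig Ψ w hi _ ?_
      rw [MeasurableSpace.measurableSet_invariants] at hs ⊢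
      refine ⟨hπ0.measurable hs.1, ?_⟩
      ext y
      simp only [Set.mem_preimage]
      rw [heq]
      have := Set.ext_iff.mp hs.2 (π none y)
      simpa using this
    intro s hs
    exact h5 _ (hgm hs)
  have hG1 : ∀ y, |Gg y| ≤ 1 := fun y => hg1 _
  set hh : Y → ℝ := fun y => f (E.π (π none y)) with hhh
  have hhB : BMr hh := ⟨hf.comp (E.mp.measurable.comp hπ0.measurable), 1, fun y => hf1 _⟩
  have hGB : BMr Gg := ⟨hGW.mono hWle le_rfl, 1, hG1⟩
  have huB : BMr u := ⟨huW.mono hWle le_rfl, 1, hu1⟩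
  obtain ⟨C, hCm, hC1, hCc⟩ := bounded_version (μ := ν) (m := Wsig Ψ w l) (f := hh) (fun y => hf1 _)
  have hCB : BMr C := ⟨hCm.mono hWle le_rfl, 1, hC1⟩
  -- integrals against W-measurable functions
  have hpull : ∀ a : Y → ℝ, Measurable[Wsig Ψ w l] a → BMr a → ∫ y, C y * a y ∂ν = ∫ y, hh y * a y ∂ν := by
    intro a ha haB
    have e1 : ν[hh * a | Wsig Ψ w l] =ᵐ[ν] ν[hh | Wsig Ψ w l] * a :=
      condExp_mul_of_stronglyMeasurable_right ha.stronglyMeasurable (hhB.mul haB).integrable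
        hhB.integrable
    have e2 := integral_condExp (μ := ν) hWle (f := hh * a)
    have e3 : ∫ y, hh y * a y ∂ν = ∫ y, (hh * a) y ∂ν := rfl
    rw [e3, ← e2]
    refine integral_congr_ae ?_
    filter_upwards [e1, hCc] with y h1 h2
    rw [h1, h2, Pi.mul_apply]
  have hEn' : E'.en w l f = ∫ y, C y ^ 2 ∂ν := by
    unfold ExtOf.en
    refine integral_congr_ae ?_
    filter_upwards [hCc] with y hy
    rw [hy]
  have hEn : E.en w l f = ∫ y, g y ^ 2 ∂E.ν := by
    unfold ExtOf.en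
    refine integral_congr_ae ?_
    filter_upwards [hgc] with y hy
    rw [hy]
  have hpush : ∀ a : E.Y → ℝ, Measurable a → ∫ y, a (π none y) ∂ν = ∫ y, a y ∂E.ν := by
    intro a ha
    have e1 := integral_map (μ := ν) (φ := π none) (f := a) hπ0.measurable.aemeasurable
      (by rw [hπ0.map_eq]; exact ha.aestronglyMeasurable)
    rw [hπ0.map_eq] at e1
    exact e1.symm
  have hEnG : E.en w l f = ∫ y, Gg y ^ 2 ∂ν := by
    rw [hEn]
    exact (hpush (fun y => g y ^ 2) (hgm'.pow_const 2)).symm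
  -- orthogonality
  have horth : ∫ y, hh y * Gg y ∂ν = ∫ y, Gg y ^ 2 ∂ν := by
    have e1 : ∫ y, hh y * Gg y ∂ν = ∫ y, f (E.π y) * g y ∂E.ν :=
      hpush (fun y => f (E.π y) * g y) ((hf.comp E.mp.measurable).mul hgm')
    have e2 : ∫ y, Gg y ^ 2 ∂ν = ∫ y, g y ^ 2 ∂E.ν := hpush (fun y => g y ^ 2) (hgm'.pow_const 2)
    rw [e1, e2]
    have hfB : BMr fun y => f (E.π y) := ⟨hf.comp E.mp.measurable, 1, fun y => hf1 _⟩
    have hgB : BMr g := ⟨hgm', 1, hg1⟩
    have e3 : E.ν[(fun y => f (E.π y)) * g | Wsig E.Ψ w l] =ᵐ[E.ν]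
        E.ν[fun y => f (E.π y) | Wsig E.Ψ w l] * g :=
      condExp_mul_of_stronglyMeasurable_right hgm.stronglyMeasurable (hfB.mul hgB).integrable
        hfB.integrable
    have e4 := integral_condExp (μ := E.ν) (Wsig_le E.Ψ w l) (f := (fun y => f (E.π y)) * g)
    have e5 : ∫ y, f (E.π y) * g y ∂E.ν = ∫ y, ((fun y => f (E.π y)) * g) y ∂E.ν := rfl
    rw [e5, ← e4]
    refine integral_congr_ae ?_
    filter_upwards [e3, hgc] with y h1 h2
    rw [h1, Pi.mul_apply, ← h2, sq]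
  have hCG := hpull Gg hGW hGB
  have hCu := hpull u huW huB
  have hd2 : ∫ y, (C y - Gg y) ^ 2 ∂ν = E'.en w l f - E.en w l f := by
    have i1 := (hCB.mul hCB).integrable (μ := ν)
    have i2 := (hCB.mul hGB).integrable (μ := ν)
    have i3 := (hGB.mul hGB).integrable (μ := ν)
    have e1 : (fun y => (C y - Gg y) ^ 2) = fun y => (C y * C y - 2 * (C y * Gg y)) +
        Gg y * Gg y := by
      funext y
      ring
    have i12 : Integrable (fun y => C y * C y - 2 * (C y * Gg y)) ν := i1.sub (i2.const_mul 2)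
    rw [e1, integral_add i12 i3, integral_sub i1 (i2.const_mul 2),
      integral_const_mul, hEn', hEnG, hCG, horth]
    simp only [sq]
    ring
  have hcor : ∫ y, ∏ η, F (π η y) ∂ν = (1 / 2) * ∫ y, (C y - Gg y) * u y ∂ν := by
    have i1 := (hCB.mul huB).integrable (μ := ν)
    have i2 := (hGB.mul huB).integrable (μ := ν)
    have i3 := (hhB.mul huB).integrable (μ := ν)
    have e1 : (fun y => (C y - Gg y) * u y) = fun y => C y * u y - Gg y * u y := by
      funext y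
      ring
    rw [e1, integral_sub i1 i2, hCu, ← integral_sub i3 i2, ← integral_const_mul]
    congr 1
    funext y
    rw [Fintype.prod_option]
    show F (π none y) * u y = _
    rw [hF]
    simp only
    ring
  -- Cauchy-Schwarz
  have hB : BMr fun y => C y - Gg y :=
    ⟨hCB.1.sub hGB.1, 2, fun y => by
      have := abs_sub (C y) (Gg y)
      linarith [hC1 y, hG1 y]⟩
  have hCS : (∫ y, (C y - Gg y) * u y ∂ν) ^ 2 ≤ ∫ y, (C y - Gg y) ^ 2 ∂ν := by
    set t : ℝ := ∫ y, (C y - Gg y) * u y ∂ν with ht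
    have i1 := (hB.mul hB).integrable (μ := ν)
    have i2 := (hB.mul huB).integrable (μ := ν)
    have i3 := (huB.mul huB).integrable (μ := ν)
    have e0 : 0 ≤ ∫ y, ((C y - Gg y) - t * u y) ^ 2 ∂ν :=
      integral_nonneg fun y => sq_nonneg _
    have e1 : (fun y => ((C y - Gg y) - t * u y) ^ 2) = fun y =>
        ((C y - Gg y) * (C y - Gg y) - (2 * t) * ((C y - Gg y) * u y)) +
          t ^ 2 * (u y * u y) := by
      funext y
      ring
    have i12 : Integrable (fun y => (C y - Gg y) * (C y - Gg y) -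
        (2 * t) * ((C y - Gg y) * u y)) ν := i1.sub (i2.const_mul _)
    rw [e1, integral_add i12 (i3.const_mul _),
      integral_sub i1 (i2.const_mul _), integral_const_mul, integral_const_mul, ← ht] at e0
    have e2 : ∫ y, u y * u y ∂ν ≤ 1 := by
      have : ∫ y, u y * u y ∂ν ≤ ∫ _ : Y, (1 : ℝ) ∂ν := by
        refine integral_mono i3 (integrable_const _) fun y => ?_
        show u y * u y ≤ 1
        have := hu1 y
        rw [abs_le] at this
        nlinarith
      simpa using this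
    have e3 : ∫ y, (C y - Gg y) * (C y - Gg y) ∂ν = ∫ y, (C y - Gg y) ^ 2 ∂ν := by
      simp only [sq]
    rw [e3] at e0
    nlinarith [sq_nonneg t]
  rw [hcor]
  by_contra hcon
  rw [not_le] at hcon
  have h6 : δ < ∫ y, (C y - Gg y) * u y ∂ν := by linarith
  have h7 : δ ^ 2 < (∫ y, (C y - Gg y) * u y ∂ν) ^ 2 := by
    exact pow_lt_pow_left₀ h6 hδ.le (by norm_num)
  rw [hd2] at hCS
  linarith

end Pool.Agent.Y311.UB
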