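import Pool.Agent.Y311.UB.Elim
import Pool.Agent.W761.Box.Main

/-!
# Arbitrary probability spaces, complex functions
-/

set_option autoImplicit false
set_option linter.unusedSectionVars false

open Filter Topology MeasureTheory ProbabilityTheory
open scoped ENNReal

noncomputable section

namespace Pool.Agent.Y311.UB

open Pool.Agent.W761.Box

variable {k : ℕ} {J : Type} [Fintype J] [DecidableEq J] {G : Type} [AddCommGroup G]

theorem Conv.mono {L : J → (Fin k → ℤ) →+ G} {E E' : Finset J} (h : Conv L E) (hE : E' ⊆ E) :
    Conv L E' := by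
  intro X _ _ μ _ Φ hΦ F hF hF1
  exact h X μ Φ hΦ F hF fun j hj => hF1 j fun hj' => hj (hE hj')

theorem BMr.toBM' {X : Type*} [MeasurableSpace X] {f : X → ℝ} (h : BMr f) :
    BM (fun x => (f x : ℂ)) := by
  obtain ⟨h1, C, hC⟩ := h
  exact ⟨Complex.measurable_ofReal.comp h1, C, fun x => by
    rw [Complex.norm_real]; exact hC x⟩

/-- The shift on sequences indexed by the group. -/
def shiftY (G : Type) [AddCommGroup G] (J : Type) (h : G) : Equiv.Perm (G → J → ℝ) where
  toFun y := fun g => y (g + h)
  invFun y := fun g => y (g - h)
  left_inv y := by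
    funext g
    simp
  right_inv y := by
    funext g
    simp

/-- Convergence for real functions on an arbitrary probability space. -/
theorem conv_arb [Countable G] {L : J → (Fin k → ℤ) →+ G} (h : Conv L Finset.univ)
    {X : Type*} [MeasurableSpace X] {μ : Measure X} [IsProbabilityMeasure μ]
    {Φ : G → Equiv.Perm X} (hΦ : Act μ Φ) {F : J → X → ℝ} (hF : ∀ j, BMr (F j)) :
    ∀ᵐ x ∂μ, ∃ c : ℝ, Tendsto (fun N => bz N fun m => ∏ j, F j (Φ (L j m) x)) atTop (𝓝 c) := by
  choose hFm C hC using hF
  set π : X → (G → J → ℝ) := fun x g j => F j (Φ g x) with hπ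
  have hπm : Measurable π := by
    rw [measurable_pi_iff]
    intro g
    rw [measurable_pi_iff]
    intro j
    exact (hFm j).comp (hΦ.mp g).measurable
  set ν : Measure (G → J → ℝ) := μ.map π with hν
  have : IsProbabilityMeasure ν := Measure.isProbabilityMeasure_map hπm.aemeasurable
  have hsh : ∀ g, Measurable (shiftY G J g : (G → J → ℝ) → (G → J → ℝ)) := by
    intro g
    rw [measurable_pi_iff]
    intro a
    exact measurable_pi_apply _
  have hcomm : ∀ g, (shiftY G J g : (G → J → ℝ) → (G → J → ℝ)) ∘ π = π ∘ (Φ g) := by
    intro g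
    funext x a j
    show F j (Φ (a + g) x) = F j (Φ a (Φ g x))
    rw [hΦ.add_apply]
  have hact : Act ν (shiftY G J) := by
    refine ⟨?_, ?_, ?_⟩
    · intro a b
      ext y g j
      show y (g + (a + b)) j = y (g + a + b) j
      rw [add_assoc]
    · ext y g j
      show y (g + 0) j = y g j
      rw [add_zero]
    · intro g
      refine ⟨hsh g, ?_⟩
      rw [hν, Measure.map_map (hsh g) hπm, hcomm, ← Measure.map_map hπm (hΦ.mp g).measurable,
        (hΦ.mp g).map_eq]
  set F' : J → (G → J → ℝ) → ℝ := fun j y => max (-|C j|) (min |C j| (y 0 j)) with hF'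
  have hF'B : ∀ j, BMr (F' j) := by
    intro j
    refine ⟨?_, |C j|, fun y => ?_⟩
    · refine measurable_const.max (measurable_const.min ?_)
      exact (measurable_pi_apply j).comp (measurable_pi_apply 0)
    · rw [abs_le]
      refine ⟨le_max_left _ _, max_le ?_ (min_le_left _ _)⟩
      have := abs_nonneg (C j)
      linarith
  have hkey := h (G → J → ℝ) ν (shiftY G J) hact F' hF'B fun j hj => absurd (Finset.mem_univ j) hj
  have hkey2 := ae_of_ae_map hπm.aemeasurable hkey
  filter_upwards [hkey2] with x hx
  obtain ⟨c, hc⟩ := hx
  refine ⟨c, hc.congr fun N => ?_⟩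
  congr 1
  funext m
  refine Finset.prod_congr rfl fun j _ => ?_
  show max (-|C j|) (min |C j| (F j (Φ (0 + L j m) x))) = _
  rw [zero_add]
  have h1 := (hC j (Φ (L j m) x)).trans (le_abs_self (C j))
  rw [abs_le] at h1
  rw [min_eq_right h1.2, max_eq_right h1.1]

/-- Convergence for complex functions on an arbitrary probability space. -/
theorem conv_cplx [Countable G] {L : J → (Fin k → ℤ) →+ G} (h : Conv L Finset.univ)
    {X : Type*} [MeasurableSpace X] {μ : Measure X} [IsProbabilityMeasure μ]
    {Φ : G → Equiv.Perm X} (hΦ : Act μ Φ) {F : J → X → ℂ} (hF : ∀ j, BM (F j)) :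
    Cv μ (fun j (m : Fin k → ℕ) => (Φ (L j (cz m)) : X → X)) F := by
  have key : ∀ (B : Finset J) (F : J → X → ℂ), (∀ j, BM (F j)) →
      (∀ j, j ∉ B → ∃ f : X → ℝ, BMr f ∧ F j = fun x => (f x : ℂ)) →
      Cv μ (fun j (m : Fin k → ℕ) => (Φ (L j (cz m)) : X → X)) F := by
    intro B
    induction B using Finset.induction_on with
    | empty =>
      intro F _ h2
      choose f hf hFf using fun j => h2 j (Finset.notMem_empty j)
      have h3 := conv_arb h hΦ hf
      filter_upwards [h3] with x hx
      obtain ⟨c, hc⟩ := hx
      refine ⟨(c : ℂ), ?_⟩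
      have h1 := (Complex.continuous_ofReal.tendsto c).comp hc
      refine h1.congr fun N => ?_
      simp only [Function.comp_apply, bz, bx, bxc]
      push_cast
      congr 1
      refine Finset.sum_congr rfl fun m _ => Finset.prod_congr rfl fun j _ => ?_
      rw [hFf j]
    | insert j B hj ih =>
      intro F h1 h2
      have hre : BMr fun x => (F j x).re := by
        obtain ⟨hm, C, hC⟩ := h1 j
        exact ⟨Complex.measurable_re.comp hm, C, fun x => (Complex.abs_re_le_norm _).trans (hC x)⟩
      have him : BMr fun x => (F j x).im := by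
        obtain ⟨hm, C, hC⟩ := h1 j
        exact ⟨Complex.measurable_im.comp hm, C, fun x => (Complex.abs_im_le_norm _).trans (hC x)⟩
      have hup : ∀ f : X → ℝ, BMr f → Cv μ (fun j (m : Fin k → ℕ) => (Φ (L j (cz m)) : X → X))
          (Function.update F j fun x => (f x : ℂ)) := by
        intro f hf
        apply ih
        · intro l
          by_cases hl : l = j
          · subst hl
            rw [Function.update_self]
            exact hf.toBM'
          · rw [Function.update_of_ne hl]
            exact h1 l
        · intro l hl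
          by_cases hlj : l = j
          · subst hlj
            exact ⟨f, hf, by rw [Function.update_self]⟩
          · rw [Function.update_of_ne hlj]
            apply h2
            intro hmem
            rcases Finset.mem_insert.mp hmem with h5 | h5
            · exact hlj h5
            · exact hl h5
      have h3 := Cv_add (hup _ hre) (Cv_smul Complex.I (hup _ him))
      have h4 : ((fun x => (((F j x).re : ℝ) : ℂ)) + Complex.I • fun x => (((F j x).im : ℝ) : ℂ)) =
          F j := by
        funext x
        simp only [Pi.add_apply, Pi.smul_apply, smul_eq_mul]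
        rw [mul_comm]
        exact Complex.re_add_im _
      rw [h4, Function.update_eq_self] at h3
      exact h3
  exact key Finset.univ F hF fun j hj => absurd (Finset.mem_univ j) hj

end Pool.Agent.Y311.UB
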