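import Pool.Agent.Y311.UB.Energy

/-!
# Structured functions
-/

set_option autoImplicit false
set_option linter.unusedSectionVars false

open Filter Topology MeasureTheory ProbabilityTheory

noncomputable section

namespace Pool.Agent.Y311.UB

open Pool.Agent.W761.Box

variable {k : ℕ} {J : Type} [Fintype J] [DecidableEq J]

/-- almost everywhere convergence of the multiple averages -/
def CvR {X : Type} [MeasurableSpace X] (μ : Measure X) (T : J → (Fin k → ℤ) → X → X)
    (F : J → X → ℝ) : Prop :=
  ∀ᵐ x ∂μ, ∃ c : ℝ, Tendsto (fun N => bz N fun m => ∏ j, F j (T j m x)) atTop (𝓝 c)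

section closure

variable {X : Type} [MeasurableSpace X] {μ : Measure X} {T : J → (Fin k → ℤ) → X → X}
  {F : J → X → ℝ}

theorem bxc_ofReal (N : Fin k → ℕ) (a : (Fin k → ℕ) → ℝ) :
    bxc k N (fun m => (a m : ℂ)) = ((bx k N a : ℝ) : ℂ) := by
  simp only [bxc, bx]
  push_cast
  rfl

theorem CvR.toCv (h : CvR μ T F) :
    Cv μ (fun j (m : Fin k → ℕ) => T j (cz m)) (fun j x => (F j x : ℂ)) := by
  filter_upwards [h] with x hx
  obtain ⟨c, hc⟩ := hx
  refine ⟨(c : ℂ), ?_⟩
  have h1 := (Complex.continuous_ofReal.tendsto c).comp hc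
  refine h1.congr fun N => ?_
  simp only [Function.comp_apply, bz]
  rw [← bxc_ofReal]
  congr 1
  funext m
  push_cast
  rfl

theorem CvR.ofCv (h : Cv μ (fun j (m : Fin k → ℕ) => T j (cz m)) (fun j x => (F j x : ℂ))) :
    CvR μ T F := by
  filter_upwards [h] with x hx
  obtain ⟨c, hc⟩ := hx
  refine ⟨c.re, ?_⟩
  have h1 := (Complex.continuous_re.tendsto c).comp hc
  refine h1.congr fun N => ?_
  simp only [Function.comp_apply, bz]
  have h2 : (fun m : Fin k → ℕ => ∏ j, ((F j (T j (cz m) x) : ℝ) : ℂ)) =
      fun m => ((∏ j, F j (T j (cz m) x) : ℝ) : ℂ) := by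
    funext m
    push_cast
    rfl
  rw [h2, bxc_ofReal, Complex.ofReal_re]

theorem BMr.toBM {f : X → ℝ} (h : BMr f) : BM (fun x => (f x : ℂ)) := by
  obtain ⟨h1, C, hC⟩ := h
  exact ⟨Complex.measurable_ofReal.comp h1, C, fun x => by
    rw [Complex.norm_real]; exact hC x⟩

theorem ofReal_update (F : J → X → ℝ) (j : J) (f : X → ℝ) :
    (fun l x => ((Function.update F j f l x : ℝ) : ℂ)) =
      Function.update (fun l x => (F l x : ℂ)) j (fun x => (f x : ℂ)) := by
  funext l x
  by_cases h : l = j
  · subst h; simp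
  · simp [h]

theorem CvR_add {j : J} {f g : X → ℝ} (hf : CvR μ T (Function.update F j f))
    (hg : CvR μ T (Function.update F j g)) :
    CvR μ T (Function.update F j fun x => f x + g x) := by
  apply CvR.ofCv
  rw [ofReal_update]
  have h1 := hf.toCv
  have h2 := hg.toCv
  rw [ofReal_update] at h1 h2
  have h3 := Cv_add h1 h2
  convert h3 using 2
  funext x
  simp

theorem CvR_smul {j : J} {f : X → ℝ} (c : ℝ) (hf : CvR μ T (Function.update F j f)) :
    CvR μ T (Function.update F j fun x => c * f x) := by
  apply CvR.ofCv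
  rw [ofReal_update]
  have h1 := hf.toCv
  rw [ofReal_update] at h1
  have h3 := Cv_smul (c : ℂ) h1
  convert h3 using 2
  funext x
  simp

theorem CvR_zero {j : J} : CvR μ T (Function.update F j fun _ => 0) := by
  apply CvR.ofCv
  rw [ofReal_update]
  have h3 := Cv_zero (μ := μ) (g := fun j (m : Fin k → ℕ) => T j (cz m))
    (F := fun j x => (F j x : ℂ)) (j := j)
  convert h3 using 2
  funext x
  simp

theorem CvR_closed [IsProbabilityMeasure μ] (hT : ∀ j m, MeasurePreserving (T j m) μ μ)
    (hgood : ∀ j, ∀ H : X → ℝ, BMr H →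
      ∀ᵐ x ∂μ, ∃ c : ℝ, Tendsto (fun N => bz N fun m => H (T j m x)) atTop (𝓝 c))
    (hF : ∀ l, BMr (F l)) {j : J} {f : X → ℝ} (hf : BMr f)
    (h : ∀ ε : ℝ, 0 < ε → ∃ f' : X → ℝ, BMr f' ∧ ∫ x, |f x - f' x| ∂μ ≤ ε ∧
      CvR μ T (Function.update F j f')) :
    CvR μ T (Function.update F j f) := by
  apply CvR.ofCv
  rw [ofReal_update]
  refine Cv_closed (fun j m => hT j (cz m)) (fun j H hH hb => hgood j H ⟨hH, hb⟩)
    (fun l => (hF l).toBM) hf.toBM ?_
  intro ε hε
  obtain ⟨f', h1, h2, h3⟩ := h ε hε
  refine ⟨fun x => (f' x : ℂ), h1.toBM, ?_, ?_⟩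
  · refine le_trans (le_of_eq ?_) h2
    congr 1
    funext x
    rw [← Complex.ofReal_sub, Complex.norm_real, Real.norm_eq_abs]
  · have h4 := h3.toCv
    rw [ofReal_update] at h4
    exact h4

end closure

variable {ι : Type} {G : Type} [AddCommGroup G]

/-- Convergence for all systems and all families of bounded functions which are `1` outside `E`. -/
def Conv (L : J → (Fin k → ℤ) →+ G) (E : Finset J) : Prop :=
  ∀ (X : Type) [MeasurableSpace X] [StandardBorelSpace X] (μ : Measure X)
    [IsProbabilityMeasure μ] (Φ : G → Equiv.Perm X), Act μ Φ → ∀ F : J → X → ℝ,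
    (∀ j, BMr (F j)) → (∀ j, j ∉ E → F j = fun _ => 1) →
    CvR μ (fun j m => (Φ (L j m) : X → X)) F

theorem prod_updateR {X : Type} (T : J → (Fin k → ℤ) → X → X) (F : J → X → ℝ) (j : J)
    (f : X → ℝ) (m : Fin k → ℤ) (x : X) :
    ∏ l, (Function.update F j f) l (T l m x) =
      f (T j m x) * ∏ l ∈ Finset.univ.erase j, F l (T l m x) := by
  rw [← Finset.mul_prod_erase _ _ (Finset.mem_univ j), Function.update_self]
  congr 1
  apply Finset.prod_congr rfl
  intro l hl
  rw [Function.update_of_ne (Finset.ne_of_mem_erase hl)]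

/-- Products of invariant indicators are merged into the other functions. -/
theorem conv_inter (L : J → (Fin k → ℤ) →+ G) {E : Finset J} {j0 : J} (w : ι → G)
    {S : Set ι} (hmerge : ∀ i ∈ S, ∃ j ∈ E, j ≠ j0 ∧ ∃ c : (Fin k → ℤ) → ℤ,
      ∀ m, L j0 m = L j m + c m • w i) (ih : Conv L (E.erase j0))
    {X : Type} [MeasurableSpace X] [StandardBorelSpace X] {μ : Measure X}
    [IsProbabilityMeasure μ] {Φ : G → Equiv.Perm X} (h : Act μ Φ) {F : J → X → ℝ}
    (hF : ∀ j, BMr (F j)) (hF1 : ∀ j, j ∉ E → F j = fun _ => 1)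
    {s : Set X} (hs : s ∈ piiUnionInter (fun i => {t | MeasurableSet[inv Φ (w i)] t}) S) :
    CvR μ (fun j m => (Φ (L j m) : X → X))
      (Function.update F j0 (s.indicator fun _ => (1 : ℝ))) := by
  classical
  obtain ⟨t, htS, A, hA, rfl⟩ := hs
  have hm : ∀ i : t, ∃ j ∈ E, j ≠ j0 ∧ ∃ c : (Fin k → ℤ) → ℤ, ∀ m, L j0 m = L j m + c m • w i :=
    fun i => hmerge i (htS i.2)
  choose jj hjE hj0 c hc using hm
  set F' : J → X → ℝ := fun j x => if j = j0 then 1 else
    F j x * ∏ i : t, if jj i = j then (A i).indicator (fun _ => (1 : ℝ)) x else 1 with hF'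
  have hAm : ∀ i : t, MeasurableSet (A i) := fun i => inv_le Φ (w i) _ (hA i i.2)
  have hF'B : ∀ j, BMr (F' j) := by
    intro j
    by_cases hj : j = j0
    · have : F' j = fun _ => 1 := by
        funext x
        simp [hF', hj]
      rw [this]
      exact BMr.one
    · have : F' j = fun x => F j x * ∏ i : t, if jj i = j then
          (A i).indicator (fun _ => (1 : ℝ)) x else 1 := by
        funext x
        simp [hF', hj]
      rw [this]
      refine (hF j).mul ⟨?_, 1, fun x => ?_⟩
      · refine Finset.measurable_fun_prod _ fun i _ => ?_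
        by_cases hij : jj i = j
        · simp only [hij, if_true]
          exact measurable_const.indicator (hAm i)
        · simp only [hij, if_false]
          exact measurable_const
      · refine abs_prod_le_one _ fun i => ?_
        split_ifs
        · by_cases hx : x ∈ A i <;> simp [hx]
        · simp
  have hF'1 : ∀ j, j ∉ E.erase j0 → F' j = fun _ => 1 := by
    intro j hj
    funext x
    by_cases hj0' : j = j0
    · simp [hF', hj0']
    · have hjE' : j ∉ E := fun h => hj (Finset.mem_erase.mpr ⟨hj0', h⟩)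
      simp only [hF', hj0', if_false]
      rw [hF1 j hjE', one_mul]
      refine Finset.prod_eq_one fun i _ => ?_
      rw [if_neg]
      rintro rfl
      exact hjE' (hjE i)
  have hconv := ih X μ Φ h F' hF'B hF'1
  filter_upwards [hconv] with x hx
  obtain ⟨L', hL'⟩ := hx
  refine ⟨L', hL'.congr fun N => ?_⟩
  congr 1
  funext m
  have e0 := prod_updateR (fun j m => (Φ (L j m) : X → X)) F j0
    ((⋂ i ∈ t, A i).indicator fun _ => (1 : ℝ)) m x
  rw [e0, ← Finset.mul_prod_erase _ _ (Finset.mem_univ j0)]
  have e1 : F' j0 (Φ (L j0 m) x) = 1 := by simp [hF']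
  rw [e1, one_mul]
  have e2 : ∀ j ∈ Finset.univ.erase j0, F' j (Φ (L j m) x) = F j (Φ (L j m) x) *
      ∏ i : t, if jj i = j then (A i).indicator (fun _ => (1 : ℝ)) (Φ (L j m) x) else 1 := by
    intro j hj
    simp [hF', Finset.ne_of_mem_erase hj]
  rw [Finset.prod_congr rfl e2, Finset.prod_mul_distrib, mul_comm]
  congr 1
  rw [Finset.prod_comm]
  -- both sides as products over `t`
  have e3 : ∀ i : t, (∏ j ∈ Finset.univ.erase j0, if jj i = j then
      (A i).indicator (fun _ => (1 : ℝ)) (Φ (L j m) x) else 1) =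
      (A i).indicator (fun _ => (1 : ℝ)) (Φ (L j0 m) x) := by
    intro i
    rw [Finset.prod_ite_eq, if_pos (Finset.mem_erase.mpr ⟨hj0 i, Finset.mem_univ _⟩)]
    have e4 : ∀ y, (A i).indicator (fun _ => (1 : ℝ)) (Φ (w i) y) =
        (A i).indicator (fun _ => (1 : ℝ)) y := by
      intro y
      have h5 := (MeasurableSpace.measurableSet_invariants.mp (hA i i.2)).2
      have h6 : Φ (w i) y ∈ A i ↔ y ∈ A i := by
        have := Set.ext_iff.mp h5 y
        simpa using this
      simp only [Set.indicator, h6]
    rw [hc i m, add_comm, h.add_apply]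
    exact (h.inv_zsmul (f := (A i).indicator (fun _ => (1 : ℝ))) e4 (c i m) _).symm
  rw [Finset.prod_congr rfl fun i _ => e3 i]
  by_cases hmem : ∀ i : t, Φ (L j0 m) x ∈ A i
  · rw [Set.indicator_of_mem, Finset.prod_eq_one]
    · intro i _
      rw [Set.indicator_of_mem (hmem i)]
    · simp only [Set.mem_iInter]
      exact fun i hi => hmem ⟨i, hi⟩
  · push_neg at hmem
    obtain ⟨i, hi⟩ := hmem
    rw [Set.indicator_of_notMem, Finset.prod_eq_zero (Finset.mem_univ i)]
    · rw [Set.indicator_of_notMem hi]
    · simp only [Set.mem_iInter]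
      push_neg
      exact ⟨i, i.2, hi⟩

/-- Bounded functions which are measurable with respect to the structured σ-algebra. -/
theorem conv_struct (L : J → (Fin k → ℤ) →+ G) {E : Finset J} {j0 : J} (w : ι → G) (l : List ι)
    (hmerge : ∀ i ∈ l, ∃ j ∈ E, j ≠ j0 ∧ ∃ c : (Fin k → ℤ) → ℤ,
      ∀ m, L j0 m = L j m + c m • w i) (ih : Conv L (E.erase j0))
    {X : Type} [mX : MeasurableSpace X] [StandardBorelSpace X] {μ : Measure X}
    [IsProbabilityMeasure μ] {Φ : G → Equiv.Perm X} (h : Act μ Φ) {F : J → X → ℝ}
    (hF : ∀ j, BMr (F j)) (hF1 : ∀ j, j ∉ E → F j = fun _ => 1)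
    {g : X → ℝ} (hg : Measurable[Wsig Φ w l] g) (hg1 : ∀ x, |g x| ≤ 1) :
    CvR μ (fun j m => (Φ (L j m) : X → X)) (Function.update F j0 g) := by
  classical
  set T : J → (Fin k → ℤ) → X → X := fun j m => (Φ (L j m) : X → X) with hT
  have hWle : Wsig Φ w l ≤ mX := Wsig_le _ _ _
  have hTmp : ∀ j m, MeasurePreserving (T j m) μ μ := fun j m => h.mp _
  have hgood : ∀ j, ∀ H : X → ℝ, BMr H →
      ∀ᵐ x ∂μ, ∃ c : ℝ, Tendsto (fun N => bz N fun m => H (T j m x)) atTop (𝓝 c) :=
    fun j H hH => h.conv (L j) hH
  set P : Set (Set X) := piiUnionInter (fun i => {t | MeasurableSet[inv Φ (w i)] t}) {i | i ∈ l}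
    with hP
  have hgen : Wsig Φ w l = MeasurableSpace.generateFrom P := by
    have := generateFrom_piiUnionInter_measurableSet (fun i => inv Φ (w i)) {i | i ∈ l}
    rw [hP, this]
    rfl
  have hpi : IsPiSystem P := isPiSystem_piiUnionInter _
    (fun i => @MeasurableSpace.isPiSystem_measurableSet X (inv Φ (w i))) _
  have huniv : (Set.univ : Set X) ∈ P := by
    refine ⟨∅, by simp, fun _ => Set.univ, by simp, by simp⟩
  have hone : CvR μ T (Function.update F j0 fun _ => 1) := by
    have := conv_inter L w (S := {i | i ∈ l}) hmerge ih h hF hF1 huniv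
    rwa [Set.indicator_univ] at this
  -- indicators of measurable sets
  have hset : ∀ s, MeasurableSet[Wsig Φ w l] s →
      CvR μ T (Function.update F j0 (s.indicator fun _ => (1 : ℝ))) := by
    intro s hs
    refine MeasurableSpace.induction_on_inter (m := Wsig Φ w l)
      (C := fun s _ => CvR μ T (Function.update F j0 (s.indicator fun _ => (1 : ℝ))))
      hgen hpi ?_ ?_ ?_ ?_ s hs
    · have h0 := CvR_zero (μ := μ) (T := T) (F := F) (j := j0)
      convert h0 using 2
      funext x
      simp
    · intro t ht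
      exact conv_inter L w (S := {i | i ∈ l}) hmerge ih h hF hF1 ht
    · intro t ht hind
      have h0 := CvR_add hone (CvR_smul (-1) hind)
      convert h0 using 2
      funext x
      by_cases hx : x ∈ t <;> simp [hx]
    · intro A hdisj hAm hind
      have hAm' : ∀ n, MeasurableSet (A n) := fun n => hWle _ (hAm n)
      refine CvR_closed hTmp hgood hF (BMr.indicator (MeasurableSet.iUnion hAm')) ?_
      intro ε hε
      -- finite unions
      set B : ℕ → Set X := fun n => ⋃ i ∈ Finset.range n, A i with hB
      have hBm : ∀ n, MeasurableSet (B n) := fun n =>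
        Finset.measurableSet_biUnion _ fun i _ => hAm' i
      have hBc : ∀ n, CvR μ T (Function.update F j0 ((B n).indicator fun _ => (1 : ℝ))) := by
        intro n
        induction n with
        | zero =>
          have h0 := CvR_zero (μ := μ) (T := T) (F := F) (j := j0)
          convert h0 using 2
          funext x
          simp [hB]
        | succ n ihn =>
          have h0 := CvR_add ihn (hind n)
          convert h0 using 2
          funext x
          have hBs : B (n + 1) = B n ∪ A n := by
            ext y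
            simp only [hB, Set.mem_iUnion, Finset.mem_range, Set.mem_union]
            constructor
            · rintro ⟨i, hi, hy⟩
              rcases Nat.lt_succ_iff_lt_or_eq.mp hi with h | h
              · exact Or.inl ⟨i, h, hy⟩
              · subst h; exact Or.inr hy
            · rintro (⟨i, hi, hy⟩ | hy)
              · exact ⟨i, by omega, hy⟩
              · exact ⟨n, by omega, hy⟩
          have hdis : Disjoint (B n) (A n) := by
            rw [Set.disjoint_left]
            intro y hy hy'
            simp only [hB, Set.mem_iUnion, Finset.mem_range] at hy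
            obtain ⟨i, hi, hyi⟩ := hy
            exact Set.disjoint_left.mp (hdisj hi.ne) hyi hy'
          rw [hBs, Set.indicator_union_of_disjoint hdis]
      have htend : Tendsto (fun n => ∫ x, |(⋃ i, A i).indicator (fun _ => (1 : ℝ)) x -
          (B n).indicator (fun _ => (1 : ℝ)) x| ∂μ) atTop (𝓝 0) := by
        have h0 : (0 : ℝ) = ∫ x, (0 : ℝ) ∂μ := by simp
        rw [h0]
        refine tendsto_integral_of_dominated_convergence (fun _ => 1) ?_ (integrable_const _) ?_ ?_
        · intro n
          exact (((measurable_const.indicator (MeasurableSet.iUnion hAm')).sub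
            (measurable_const.indicator (hBm n))).abs).aestronglyMeasurable
        · intro n
          refine Eventually.of_forall fun x => ?_
          rw [Real.norm_eq_abs, abs_abs]
          by_cases h1 : x ∈ ⋃ i, A i <;> by_cases h2 : x ∈ B n <;> simp [h1, h2]
        · refine Eventually.of_forall fun x => ?_
          by_cases h1 : x ∈ ⋃ i, A i
          · obtain ⟨i, hi⟩ := Set.mem_iUnion.mp h1
            refine tendsto_const_nhds.congr' ?_
            filter_upwards [eventually_gt_atTop i] with n hn
            have h2 : x ∈ B n := by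
              simp only [hB, Set.mem_iUnion, Finset.mem_range]
              exact ⟨i, hn, hi⟩
            simp [h1, h2]
          · refine tendsto_const_nhds.congr fun n => ?_
            have h2 : x ∉ B n := by
              intro h3
              simp only [hB, Set.mem_iUnion, Finset.mem_range] at h3
              obtain ⟨i, _, hi⟩ := h3
              exact h1 (Set.mem_iUnion.mpr ⟨i, hi⟩)
            simp [h1, h2]
      obtain ⟨n, hn⟩ := ((tendsto_order.mp htend).2 ε hε).exists
      exact ⟨_, BMr.indicator (hBm n), hn.le, hBc n⟩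
  -- simple functions
  have hsimple : ∀ φ : @SimpleFunc X (Wsig Φ w l) ℝ,
      CvR μ T (Function.update F j0 fun x => φ x) := by
    intro φ
    refine @SimpleFunc.induction X ℝ (Wsig Φ w l) _
      (fun φ => CvR μ T (Function.update F j0 fun x => φ x)) ?_ ?_ φ
    · intro c s hs
      have h0 := CvR_smul c (hset s hs)
      convert h0 using 2
      funext x
      by_cases hx : x ∈ s <;> simp [hx]
    · intro φ₁ φ₂ _ h1 h2
      exact CvR_add h1 h2
  have hgB : BMr g := ⟨hg.mono hWle le_rfl, 1, hg1⟩
  refine CvR_closed hTmp hgood hF hgB ?_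
  intro ε hε
  have hsm : StronglyMeasurable[Wsig Φ w l] g := hg.stronglyMeasurable
  have hap1 : ∀ n x, |hsm.approxBounded 1 n x| ≤ 1 := fun n x =>
    hsm.norm_approxBounded_le zero_le_one n x
  have hapm : ∀ n, Measurable fun x => hsm.approxBounded 1 n x := by
    intro n
    have h0 : Measurable[Wsig Φ w l] fun x => hsm.approxBounded 1 n x :=
      @SimpleFunc.measurable X ℝ (Wsig Φ w l) _ (hsm.approxBounded 1 n)
    exact h0.mono hWle le_rfl
  have htend : Tendsto (fun n => ∫ x, |g x - hsm.approxBounded 1 n x| ∂μ) atTop (𝓝 0) := by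
    have h0 : (0 : ℝ) = ∫ x, (0 : ℝ) ∂μ := by simp
    rw [h0]
    refine tendsto_integral_of_dominated_convergence (fun _ => 2) ?_ (integrable_const _) ?_ ?_
    · intro n
      exact ((hgB.1.sub (hapm n)).abs).aestronglyMeasurable
    · intro n
      refine Eventually.of_forall fun x => ?_
      rw [Real.norm_eq_abs, abs_abs]
      have := abs_sub (g x) (hsm.approxBounded 1 n x)
      linarith [hg1 x, hap1 n x]
    · refine Eventually.of_forall fun x => ?_
      have h1 := hsm.tendsto_approxBounded_of_norm_le (c := 1) (x := x) (hg1 x)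
      have h2 := (tendsto_const_nhds (x := g x)).sub h1
      rw [sub_self] at h2
      have h3 := h2.abs
      rwa [abs_zero] at h3
  obtain ⟨n, hn⟩ := ((tendsto_order.mp htend).2 ε hε).exists
  exact ⟨_, ⟨hapm n, 1, hap1 n⟩, hn.le, hsimple _⟩

end Pool.Agent.Y311.UB
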